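import Pool.Agent.Lib.MP_233400_co.RP.Stm

set_option autoImplicit false

namespace Pool.Agent.Lib.MP_233400_co.RP

open Finset

theorem AVG_bern (y h : ℝ) (hy : 0 ≤ y) (hh : 0 ≤ h) : ∀ k : ℕ,
    y ^ (k + 1) + ((k : ℝ) + 1) * h * y ^ k ≤ (y + h) ^ (k + 1)
  | 0 => by simp
  | k + 1 => by
    have ih := AVG_bern y h hy hh k
    have h1 : (y + h) * (y ^ (k + 1) + ((k : ℝ) + 1) * h * y ^ k) ≤ (y + h) * (y + h) ^ (k + 1) :=
      mul_le_mul_of_nonneg_left ih (by positivity)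
    have h2 : (y + h) ^ (k + 1 + 1) = (y + h) * (y + h) ^ (k + 1) := by ring
    rw [h2]
    refine le_trans ?_ h1
    have h3 : (y + h) * (y ^ (k + 1) + ((k : ℝ) + 1) * h * y ^ k) =
        y ^ (k + 1 + 1) + (((k : ℝ) + 1) + 1) * h * y ^ (k + 1) + ((k : ℝ) + 1) * h ^ 2 * y ^ k := by
      ring
    rw [h3]
    push_cast
    have h4 : 0 ≤ ((k : ℝ) + 1) * h ^ 2 * y ^ k := by positivity
    linarith

theorem AVG_ite (A U : Finset ℕ) (f₁ f₂ : ℝ) :
    ∑ b ∈ U, (if b ∈ A then f₁ else f₂) = (U.card : ℝ) * f₂ + ((A ∩ U).card : ℝ) * (f₁ - f₂) := by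
  have h1 : ∀ b ∈ U, (if b ∈ A then f₁ else f₂) = f₂ + (if b ∈ A then f₁ - f₂ else 0) := by
    intro b _
    split_ifs <;> ring
  rw [Finset.sum_congr rfl h1, Finset.sum_add_distrib, Finset.sum_const, nsmul_eq_mul,
    ← Finset.sum_filter, Finset.sum_const, nsmul_eq_mul, Finset.filter_mem_eq_inter,
    Finset.inter_comm]

theorem AVG_card (A U : Finset ℕ) {b : ℕ} (hb : b ∈ U) :
    (A ∩ U.erase b).card = if b ∈ A then (A ∩ U).card - 1 else (A ∩ U).card := by
  rw [Finset.inter_erase, Finset.card_erase_eq_ite]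
  by_cases h : b ∈ A
  · rw [if_pos h, if_pos (mem_inter.2 ⟨h, hb⟩)]
  · rw [if_neg h, if_neg fun h' => h (mem_inter.1 h').1]

theorem AVG_pos (A U : Finset ℕ) {b : ℕ} (hb : b ∈ U) (h : b ∈ A) : 1 ≤ (A ∩ U).card :=
  Finset.card_pos.2 ⟨b, mem_inter.2 ⟨h, hb⟩⟩

theorem AVG_sum1 (A U : Finset ℕ) :
    ∑ b ∈ U, ((A ∩ U.erase b).card : ℝ) = ((A ∩ U).card : ℝ) * ((U.card : ℝ) - 1) := by
  have h1 : ∀ b ∈ U, ((A ∩ U.erase b).card : ℝ) =
      if b ∈ A then ((A ∩ U).card : ℝ) - 1 else ((A ∩ U).card : ℝ) := by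
    intro b hb
    rw [AVG_card A U hb]
    by_cases h : b ∈ A
    · rw [if_pos h, if_pos h, Nat.cast_sub (AVG_pos A U hb h), Nat.cast_one]
    · rw [if_neg h, if_neg h]
  rw [Finset.sum_congr rfl h1, AVG_ite]
  ring

theorem AVG_sum2 (A U : Finset ℕ) (y h : ℝ) (hy : 0 ≤ y) (hh : 0 ≤ h)
    (hyh : (U.card : ℝ) * h = 1 - y) :
    ∑ b ∈ U, y ^ (A ∩ U.erase b).card ≤ (U.card : ℝ) * (y + h) ^ (A ∩ U).card := by
  rcases Nat.eq_zero_or_pos (A ∩ U).card with h0 | h0
  · have h1 : ∀ b ∈ U, y ^ (A ∩ U.erase b).card = 1 := by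
      intro b hb
      rw [AVG_card A U hb]
      split_ifs <;> simp [h0]
    rw [Finset.sum_congr rfl h1, h0]
    simp
  · obtain ⟨k, hk⟩ := Nat.exists_eq_add_of_le' h0
    have h1 : ∀ b ∈ U, y ^ (A ∩ U.erase b).card = if b ∈ A then y ^ k else y ^ (k + 1) := by
      intro b hb
      rw [AVG_card A U hb, hk]
      split_ifs <;> simp
    rw [Finset.sum_congr rfl h1, AVG_ite, hk]
    have h2 := mul_le_mul_of_nonneg_left (AVG_bern y h hy hh k) (Nat.cast_nonneg (α := ℝ) U.card)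
    refine le_trans (le_of_eq ?_) h2
    have h3 : (U.card : ℝ) * (y ^ (k + 1) + ((k : ℝ) + 1) * h * y ^ k) =
        (U.card : ℝ) * y ^ (k + 1) + ((k : ℝ) + 1) * ((U.card : ℝ) * h) * y ^ k := by ring
    rw [h3, hyh]
    push_cast
    ring

theorem p_AVG : S_AVG := by
  intro ι S A g α β γ hβ i
  induction i with
  | zero =>
    intro U hU hV
    have hm : (0 : ℝ) < U.card := by exact_mod_cast hU
    have h1 := hV U (Finset.Subset.refl U) (by omega)
    refine le_trans (le_of_eq ?_) h1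
    congr 1
    refine Finset.sum_congr rfl fun w _ => ?_
    have e1 : ((U.card : ℝ) - ((0 : ℕ) : ℝ)) / U.card = 1 := by
      rw [Nat.cast_zero, sub_zero, div_self hm.ne']
    have e2 : 1 - ((U.card : ℝ) - ((0 : ℕ) : ℝ)) / (2 * U.card) = 1 / 2 := by
      rw [Nat.cast_zero, sub_zero]
      field_simp
      norm_num
    rw [e1, e2, mul_one]
  | succ i ih =>
    intro U hU hV
    have hm2 : (i : ℝ) + 1 < U.card := by exact_mod_cast hU
    have hi0 : (0 : ℝ) ≤ i := Nat.cast_nonneg i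
    have hm : (0 : ℝ) < U.card := by linarith
    have hm1 : (0 : ℝ) < (U.card : ℝ) - 1 := by linarith
    set m : ℝ := (U.card : ℝ) with hmdef
    change _ ≤ (∑ a ∈ U, avg i g (U.erase a)) / m
    rw [le_div_iff₀ hm]
    set x : ℝ := (m - 1 - i) / (m - 1) with hx
    set y : ℝ := 1 - (m - 1 - i) / (2 * (m - 1)) with hy
    have hx0 : 0 ≤ x := div_nonneg (by linarith) hm1.le
    have hx1 : x ≤ 1 := by
      rw [hx, div_le_one hm1]
      linarith
    have hyx : y = 1 - x / 2 := by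
      rw [hy, hx]
      field_simp
    have hIH : ∀ b ∈ U, ∑ w ∈ S, (α * (((A w ∩ U.erase b).card : ℝ) * x) -
        β * y ^ (A w ∩ U.erase b).card) - γ ≤ avg i g (U.erase b) := by
      intro b hb
      have hc : (U.erase b).card + 1 = U.card := Finset.card_erase_add_one hb
      have hcr : (((U.erase b).card : ℕ) : ℝ) = m - 1 := by
        rw [hmdef, ← hc]
        push_cast
        ring
      have h1 := ih (U.erase b) (by omega) (fun V hVs hVc => hV V
        (hVs.trans (Finset.erase_subset b U)) (by omega))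
      rw [hcr] at h1
      exact h1
    have hsum := Finset.sum_le_sum hIH
    refine le_trans ?_ hsum
    have hR : ∑ b ∈ U, (∑ w ∈ S, (α * (((A w ∩ U.erase b).card : ℝ) * x) -
        β * y ^ (A w ∩ U.erase b).card) - γ) = ∑ w ∈ S, ∑ b ∈ U,
          (α * (((A w ∩ U.erase b).card : ℝ) * x) - β * y ^ (A w ∩ U.erase b).card) -
        m * γ := by
      rw [Finset.sum_sub_distrib, Finset.sum_const, nsmul_eq_mul, Finset.sum_comm]
    rw [hR, sub_mul, mul_comm γ]
    refine sub_le_sub_right ?_ _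
    rw [Finset.sum_mul]
    refine Finset.sum_le_sum fun w _ => ?_
    rw [Finset.sum_sub_distrib, ← Finset.mul_sum, ← Finset.mul_sum, ← Finset.sum_mul, AVG_sum1,
      ← hmdef]
    have h2 := AVG_sum2 (A w) U y (x / (2 * m)) (by rw [hyx]; linarith) (by positivity) (by
      rw [hyx, ← hmdef]
      field_simp
      ring)
    rw [← hmdef] at h2
    have h3 : y + x / (2 * m) = 1 - (m - ((i + 1 : ℕ) : ℝ)) / (2 * m) := by
      rw [hyx, hx]
      push_cast
      field_simp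
      ring
    rw [h3] at h2
    have h4 : α * (((A w ∩ U).card : ℝ) * ((m - ((i + 1 : ℕ) : ℝ)) / m)) * m =
        α * (((A w ∩ U).card : ℝ) * (m - 1) * x) := by
      rw [hx]
      push_cast
      field_simp
      ring
    have h5 := mul_le_mul_of_nonneg_left h2 hβ
    rw [sub_mul, h4]
    linarith

end Pool.Agent.Lib.MP_233400_co.RP
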