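import Pool.Agent.Lib.MP_233400_co.RP.Defs

set_option autoImplicit false

/-!
# MP_233400_co, project RP (rainbow paths): the statements of the pieces

Aim: `ex*(Q_n, P_k) ≤ ex*(Q_n, K_{1,k}) + 5000 log (k + 1) 2 ^ n` for all `n` and `k ≥ 1`.

Plan. `L = log (k + 1)`, `6000 L ≤ k` (otherwise `S_SML`). Let `H ≤ Q n`, properly coloured by `c`,
have more than `(k - 1 + 10000 L) 2 ^ n / 2` edges and no rainbow `P_k`. By `exists_core` there is `S`
such that `H[S]` has average degree more than `D = k - 1 + 10000 L` and minimum degree more than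
`D / 2`. Every vertex `u` of `S` carries a token: a rainbow path of `H` that begins at `u` (most recent
vertex first) whose colours have fired; at the beginning it is `[u]`. When the colour `a` fires, the
tokens at the two ends of every edge of colour `a` change places, and a loop that closes is erased
(`step`, `ext`). `U` is the set of the colours that have not fired, `m` the number of all colours,
`m₀` about `2800 L m / k`; the colours fire in an order chosen greedily (`S_TEL`) such that the sum of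
`psi` is at the end at least as large as for the average order. Without the loops the average length
would grow by (average degree) `/ m` in every step. The loops are controlled by the potential `phi`
(`S_LEN`, `S_PHI`, `S_STEP`), which contracts because at most `D` of the neighbours of `u` are nearer
to a vertex at distance `D` than `u` is (`S_DST`).
-/

namespace Pool.Agent.Lib.MP_233400_co.RP

open Finset

/-- [RP DST] average of `4 ^ (-dist)` over neighbours.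

Proof. A point `v` at distance one from `u` is `flip u i` for exactly one `i` (`flip` of `Basic`; `v`
differs from `u` exactly at `i`). If `u i ≠ z i` then `dist v z = D - 1`, `D = dist u z`, otherwise
`dist v z = D + 1`. There are `D` coordinates of the first kind, so at most `D` elements of `N` with
`dist v z = D - 1`, and for all the others the term is `(1/4) ^ (D + 1)`. -/
def S_DST : Prop := ∀ (n : ℕ) (u z : Fin n → Bool) (N : Finset (Fin n → Bool)),
  (∀ v ∈ N, hammingDist u v = 1) →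
  ∑ v ∈ N, (1 / 4 : ℝ) ^ hammingDist v z ≤
    (hammingDist u z : ℝ) * (1 / 4) ^ (hammingDist u z - 1) +
      (N.card : ℝ) * (1 / 4) ^ (hammingDist u z + 1)

/-- [RP LEN] the lengths after a move, and the size of the potential.

Proof. Let `p = u :: q`. If `v ∉ p` then `(ext p v).length = p.length + 1`. `v ≠ u` for `v ∈ N`. If `v`
is the element `q_i` of `q` (`i ≥ 1`, counted from one) then `(ext p v).length = p.length - i`, so
`p.length + 1 - (ext p v).length = i + 1`, and the term of `v` in `pot u 2 q` is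
`(i + 1) (1/4) ^ 1`. As `q` has no repetition and all terms of `pot` are `≥ 0`,
`∑_(v ∈ N) (p.length + 1 - (ext p v).length) = ∑_(v ∈ N, v ∈ q) (i(v) + 1) ≤ 4 phi p`. (Induction on
`q` for the statement: `∑_(v ∈ N) (if v ∈ q then (w + q.idxOf v : ℝ) else 0) ≤ 4 * pot u w q` for all
`w`, if `q` has no repetition and all points of `N` have distance one from `u`.)
Second part: all terms of `pot` are `≥ 0`; `dist (u, q_i) ≥ 1` because `u ∉ q`, so
`phi p ≤ (1/4) ∑_(i = 1)^(|q|) (i + 1) ≤ (|q| + 1) ^ 2 / 4` (indeed `∑_(i=1)^r (i + 1) =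
r (r + 3) / 2 ≤ (r + 1) ^ 2`). -/
def S_LEN : Prop := ∀ (n : ℕ) (u : Fin n → Bool) (q : List (Fin n → Bool))
  (N : Finset (Fin n → Bool)), (∀ v ∈ N, hammingDist u v = 1) → (u :: q).Nodup →
  (N.card : ℝ) * (((u :: q).length : ℝ) + 1) - 4 * phi (u :: q) ≤
      ∑ v ∈ N, ((ext (u :: q) v).length : ℝ) ∧
    0 ≤ phi (u :: q) ∧ 4 * phi (u :: q) ≤ ((u :: q).length : ℝ) ^ 2

/-- [RP PHI] the potential after a move (Uses `S_DST`.)

Proof. Let `p = u :: q`, `d = N.card`.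
(1) For `v ∈ N`: `phi (ext p v) ≤ 1/2 + (3/2) pot v 2 q`. If `v ∉ p`, `phi (v :: u :: q) =
2 (1/4) ^ dist (v, u) + pot v 3 q` and `pot v (w + 1) q ≤ (3/2) pot v w q` for `w ≥ 2` (termwise,
`w + 1 ≤ (3/2) w`). If `v ∈ p` then `v ∈ q` (as `v ≠ u`), `q = q₁ ++ v :: q₂` with `v ∉ q₁`,
`ext p v = v :: q₂`, and `phi (v :: q₂) = pot v 2 q₂ ≤ pot v 2 q` (the weights of the elements of `q₂`
are larger in `pot v 2 q`, all terms are `≥ 0`).
(2) `∑_(v ∈ N) pot v w q ≤ potD u w q + (d / 4) pot u w q`: induction on `q` with `S_DST`.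
(3) `potD u w q ≤ (d / 12) pot u w q + 2 exp (-d / 70) W`, `W = ∑ (weights)`; termwise, with
`D = dist (u, q_i)`: if `48 D ≤ d` then `D (1/4) ^ (D - 1) = 4 D (1/4) ^ D ≤ (d / 12) (1/4) ^ D`
(for `D = 0` both sides are fine, the left one is `0`). If `48 D > d`, so `D ≥ 1`, then
`D (1/4) ^ (D - 1) = 4 (D (1/2) ^ D) (1/2) ^ D ≤ 2 (1/2) ^ D` (`D ≤ 2 ^ (D - 1)`) and
`(1/2) ^ D = exp (-D log 2) ≤ exp (-(d / 48) log 2) ≤ exp (-d / 70)` as `log 2 > 0.6931 > 48 / 70`.
For `w = 2`: `W = ∑_(i=1)^(|q|) (i + 1) ≤ (|q| + 1) ^ 2 ≤ (k + 1) ^ 2`.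
Together: `∑ phi (ext p v) ≤ d / 2 + (3/2) (d / 12 + d / 4) phi p + 3 (k + 1) ^ 2 exp (-d / 70)`. -/
def S_PHI : Prop := ∀ (n k : ℕ) (u : Fin n → Bool) (q : List (Fin n → Bool))
  (N : Finset (Fin n → Bool)), (∀ v ∈ N, hammingDist u v = 1) → (u :: q).Nodup →
  (u :: q).length ≤ k →
  ∑ v ∈ N, phi (ext (u :: q) v) ≤ (N.card : ℝ) / 2 + (N.card : ℝ) / 2 * phi (u :: q) +
    3 * ((k : ℝ) + 1) ^ 2 * Real.exp (-(N.card : ℝ) / 70)

/-- [RP STEP] the average change of `∑ psi` in one step (Uses `S_LEN`, `S_PHI`.)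

Proof. `j = U.card - 1 ≥ 1`, so the first coefficient is `a j / (j + 1)`. For `b ∈ U` the map `f b` is
an involution of `S`, so `∑_(u ∈ S) psi a (step f b s u) = ∑_(w ∈ S) psi a (ext (s w) (f b w))`
(`u = f b w`). It remains to show for every `w ∈ S`, with `p = s w = w :: q`, `A = act f w U`,
`d = A.card`:
`∑_(b ∈ U) psi a (ext p (f b w)) ≥ (j + 1) psi (a j / (j + 1)) p + d (1 - a / 2) - 5 (k + 1) ^ 2 E`,
`E = exp (-K / 70) + [d < K]`. For `b ∈ U \ A` we have `f b w = w` and `ext p w = p`. For `b ∈ A` the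
points `f b w` are different (`Sys.inj`) and at distance one from `w`; let `N` be the set of these `d`
points. So the left side is `∑_(v ∈ N) psi a (ext p v) + (j + 1 - d) psi a p`, and (left side) -
`(j + 1) psi (a j / (j + 1)) p` is equal to
`∑_(v ∈ N) (ext p v).length - d p.length - a (∑_(v ∈ N) phi (ext p v) + (j + 1 - d) phi p - j phi p)`
`≥ d - 4 phi p - a (∑_(v ∈ N) phi (ext p v) - (d - 1) phi p)` (by `S_LEN`)
`≥ d - 4 phi p - a (d / 2 + (1 - d / 2) phi p + 3 (k + 1) ^ 2 exp (-d / 70))` (by `S_PHI`)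
`= d (1 - a / 2) + (a (d / 2 - 1) - 4) phi p - 3 a (k + 1) ^ 2 exp (-d / 70)`.
If `d ≥ K` then `a (d / 2 - 1) ≥ 4`, `phi p ≥ 0`, `a ≤ 1` and `exp (-d / 70) ≤ exp (-K / 70)`. If
`d < K` then `(a (d / 2 - 1) - 4) phi p ≥ - 5 phi p ≥ - (5/4) (k + 1) ^ 2` by `S_LEN`, and the last
term is at least `- 3 (k + 1) ^ 2`. -/
def S_STEP : Prop := ∀ (n k : ℕ) (S : Finset (Fin n → Bool))
  (f : ℕ → (Fin n → Bool) → (Fin n → Bool)) (U : Finset ℕ)
  (s : (Fin n → Bool) → List (Fin n → Bool)) (a K : ℝ), Sys S f → 2 ≤ U.card →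
  (∀ u ∈ S, ∃ q, s u = u :: q) → (∀ u ∈ S, (s u).Nodup) → (∀ u ∈ S, (s u).length ≤ k) →
  0 ≤ a → a ≤ 1 → 0 ≤ K → 4 ≤ a * (K / 2 - 1) →
  (U.card : ℝ) * ∑ u ∈ S, psi (a * ((U.card : ℝ) - 1) / U.card) (s u) +
      ∑ w ∈ S, (((act f w U).card : ℝ) * (1 - a / 2) - 5 * ((k : ℝ) + 1) ^ 2 *
        (Real.exp (-K / 70) + if ((act f w U).card : ℝ) < K then 1 else 0)) ≤
    ∑ b ∈ U, ∑ u ∈ S, psi a (step f b s u)

/-- [RP TEL] greedy choice of the order of the colours.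

Proof. Induction on `t`, for all `U`, `s`. `t = 0`: nothing to do. Step: `m₀ + t + 1 ≤ U.card`, so
`0 < U.card` and `m₀ < U.card`. By the definition of `avg`,
`∑_(i < t + 1) avg i g U = g U + (∑_(a ∈ U) ∑_(i < t) avg i g (U.erase a)) / U.card`, so
`∑_(a ∈ U) (F U s + ∑_(i < t + 1) avg i g U) = U.card * (F U s + g U) + ∑_(a ∈ U) ∑_(i < t)
avg i g (U.erase a) ≤ ∑_(a ∈ U) (F (U.erase a) (stp a s) + ∑_(i < t) avg i g (U.erase a))`. Hence
some `a ∈ U` has `F U s + ∑_(i < t + 1) avg i g U ≤ F (U.erase a) (stp a s) + ∑_(i < t)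
avg i g (U.erase a)` (`Finset.exists_le_of_sum_le`), and the induction hypothesis applies to
`U.erase a`, `stp a s`. -/
def S_TEL : Prop := ∀ (Z : Type) (F : Finset ℕ → Z → ℝ) (g : Finset ℕ → ℝ) (stp : ℕ → Z → Z)
  (Inv : Finset ℕ → Z → Prop) (m₀ : ℕ),
  (∀ U s, Inv U s → m₀ < U.card → ∀ a ∈ U, Inv (U.erase a) (stp a s)) →
  (∀ U s, Inv U s → m₀ < U.card →
    (U.card : ℝ) * (F U s + g U) ≤ ∑ a ∈ U, F (U.erase a) (stp a s)) →
  ∀ (t : ℕ) (U : Finset ℕ) (s : Z), Inv U s → m₀ + t ≤ U.card →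
    ∃ (U' : Finset ℕ) (s' : Z), Inv U' s' ∧ U' ⊆ U ∧ U'.card + t = U.card ∧
      F U s + ∑ i ∈ Finset.range t, avg i g U ≤ F U' s'

/-- [RP AVG] lower bound for the iterated averages.

Proof. Induction on `i`, for all `U`. `i = 0`: the hypothesis for `V = U`. Step: write `m = U.card`,
`i + 1 < m`. For `b ∈ U` the induction hypothesis applies to `U.erase b` (`m - 1` elements; the
hypothesis on `g` for the subsets of `U.erase b` with `m - 1 - i` elements follows from that for `U`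
and `i + 1`). So `avg (i + 1) g U * m = ∑_(b ∈ U) avg i g (U.erase b) ≥ ∑_b (∑_w (α a_(w,b) x -
β (1 - x / 2) ^ a_(w,b)) - γ)` where `x = (m - 1 - i) / (m - 1)`, `a_(w,b) = (A w ∩ U.erase b).card`.
Let `a_w = (A w ∩ U).card`; `a_(w,b) = a_w - 1` for the `a_w` elements `b` of `A w ∩ U` and `a_w` for
the other `m - a_w` elements. Hence `∑_b a_(w,b) = a_w (m - 1)`, and the first part is
`α a_w (m - 1) x = α a_w (m - 1 - i)`. For the second part let `y = 1 - x / 2 ≥ 1 / 2`; for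
`a_w ≥ 1`: `∑_b y ^ a_(w,b) = a_w y ^ (a_w - 1) + (m - a_w) y ^ a_w =
m y ^ (a_w - 1) (y + (a_w / m) (x / 2))`, and `y ^ (a_w - 1) (y + a_w x / (2 m)) ≤
(y + x / (2 m)) ^ a_w` (Bernoulli: `(y + h) ^ a ≥ y ^ a + a h y ^ (a - 1)`), where
`y + x / (2 m) = 1 - (m - 1 - i) / (2 m)`. For `a_w = 0` both sides are `1`. Use `β ≥ 0`. -/
def S_AVG : Prop := ∀ (ι : Type) (S : Finset ι) (A : ι → Finset ℕ) (g : Finset ℕ → ℝ)
  (α β γ : ℝ), 0 ≤ β → ∀ (i : ℕ) (U : Finset ℕ), i < U.card →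
  (∀ V, V ⊆ U → V.card + i = U.card →
    ∑ w ∈ S, (α * ((A w ∩ V).card : ℝ) - β * (1 / 2) ^ (A w ∩ V).card) - γ ≤ g V) →
  ∑ w ∈ S, (α * (((A w ∩ U).card : ℝ) * (((U.card : ℝ) - i) / U.card)) -
      β * (1 - ((U.card : ℝ) - i) / (2 * U.card)) ^ (A w ∩ U).card) - γ ≤ avg i g U

/-- [RP SYS] the partial matchings of a properly coloured subgraph of the cube.

Proof. For `u ∈ S` and a colour `a` there is at most one `v ∈ S` with `H.Adj u v` and `c s(u, v) = a`
(properness). Put `f a u = v` if it exists and `f a u = u` otherwise (`u ∉ S`: `f a u = u`). Then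
`f a u = v ≠ u` implies `f a v = u`, the distance is one because `H ≤ Q n` (`Q_adj_iff`), and
`a = c s(u, f a u)` gives `Sys.inj`. `C` = the set of all `c s(u, v)`, `u, v ∈ S`; `a ↦ f a u` is a
bijection from `act f u C` to `nb H S u`. -/
def S_SYS : Prop := ∀ (n : ℕ) (H : SimpleGraph (Fin n → Bool)) (c : Sym2 (Fin n → Bool) → ℕ)
  (S : Finset (Fin n → Bool)), H ≤ Q n → ProperColouring H c →
  ∃ (f : ℕ → (Fin n → Bool) → (Fin n → Bool)) (C : Finset ℕ), Sys S f ∧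
    (∀ a, ∀ u ∈ S, f a u ≠ u → H.Adj u (f a u) ∧ c s(u, f a u) = a) ∧
    ∀ u ∈ S, (act f u C).card = (nb H S u).card

/-- [RP GOOD] good tokens stay good, and a long one is a rainbow path.

Proof. (1) trivial. (2) If `u ∉ v :: q` the new list is `u :: v :: q`, its list of colours is
`a :: cols c (v :: q)`, and `a ∈ U` is not in `cols c (v :: q)`. If `u ∈ v :: q` the new list is the
suffix of `v :: q` that begins with `u`; `Nodup` and `IsChain` pass to suffixes, and `cols c` of a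
suffix is a suffix of `cols c` (induction on the list). (3) `ext (u :: q) u = u :: q`. (4) Let
`g i = p[i]` for `i : Fin (k + 1)`. Injective by `Nodup`, adjacent to adjacent by `IsChain` (both
orders), and `c s(p[i], p[i+1]) = (cols c p)[i]` with `cols c p` without repetition; every edge of
`pathGraph (k + 1)` is `s(i, i + 1)` for some `i < k` (`pathGraph_adj`). -/
def S_GOOD : Prop := ∀ (X : Type) [DecidableEq X] (H : SimpleGraph X) (c : Sym2 X → ℕ)
  (U : Finset ℕ),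
  (∀ u : X, Good H c U [u]) ∧
  (∀ (u v : X) (q : List X) (a : ℕ), Good H c U (v :: q) → H.Adj u v → c s(u, v) = a → a ∈ U →
    Good H c (U.erase a) (ext (v :: q) u) ∧ ∃ q', ext (v :: q) u = u :: q') ∧
  (∀ (u : X) (q : List X) (a : ℕ), Good H c U (u :: q) →
    Good H c (U.erase a) (ext (u :: q) u) ∧ ext (u :: q) u = u :: q) ∧
  ∀ (k : ℕ) (p : List X), Good H c U p → k + 1 ≤ p.length →
    HasRainbowCopy H c (SimpleGraph.pathGraph (k + 1))

/-- [RP NUMA] the sum of the gains of one vertex of degree `d`.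

Proof. `L = log (k + 1)`. As `L > 0.69`, `k ≥ 4000` and so `L > 8`. Let `u = m - i`, it runs over
`m₀ + 1, …, m`. `2800 L m ≤ k m₀`, `m₀ ≥ 2800 L ≥ 2` (`m ≥ k`), `k m₀ ≤ 2800 L m + k`.
(a) `∑_u (1/u) (1 - 64 m / (k (u - 1))) d (u / m) = d ((m - m₀) / m - (64 / k) ∑_(u) 1 / (u - 1))`,
and `∑_(u = m₀ + 1)^m 1 / (u - 1) = ∑_(j = m₀)^(m - 1) 1 / j ≤ log ((m - 1) / (m₀ - 1)) ≤
log (2 m / m₀) ≤ log (2 k / (2800 L)) ≤ L` (`1 / j ≤ log (j / (j - 1))`, `m₀ - 1 ≥ m₀ / 2`). So (a) is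
at least `d (1 - 2800 L / k - 1 / m - 64 L / k) ≥ d (1 - 3000 L / k)` (`1 / m ≤ 1 / k`, `136 L ≥ 1`).
(b) Let `y = k u / m ≥ k m₀ / m ≥ 2800 L`. `2 ^ (y / 8) (1 - u / (2 m)) ^ d ≤
exp (y log 2 / 8 - d u / (2 m)) ≤ exp (0.09 y - y / 4) ≤ exp (- y / 560)` (`2 d ≥ k`), and
`exp (- y / 560) ≤ exp (- 5 L) = (k + 1) ^ (-5)`. So the errors sum to at most
`∑_u (1/u) 10 (k + 1) ^ (-3) ≤ 10 L (k + 1) ^ (-3) ≤ 1` (or simply: at most `m - m₀ ≤ m` terms, each
`1/u ≤ 1/m₀ ≤ k / (2800 L m)`). -/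
def S_NUMA : Prop := ∀ (k m m₀ d : ℕ), 1 ≤ k → 6000 * Real.log ((k : ℝ) + 1) ≤ k → k ≤ m →
  k ≤ 2 * d → m₀ = ⌈2800 * Real.log ((k : ℝ) + 1) * m / k⌉₊ →
  (d : ℝ) * (1 - 3000 * Real.log ((k : ℝ) + 1) / k) - 1 ≤
    ∑ i ∈ Finset.range (m - m₀),
      ((1 / ((m : ℝ) - i)) * (1 - 64 * m / (k * ((m : ℝ) - i - 1))) * (d * (((m : ℝ) - i) / m)) -
        (1 / ((m : ℝ) - i)) * (5 * ((k : ℝ) + 1) ^ 2) * 2 ^ (k * ((m : ℝ) - i) / (8 * m)) *
          (1 - ((m : ℝ) - i) / (2 * m)) ^ d -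
        (1 / ((m : ℝ) - i)) * (5 * ((k : ℝ) + 1) ^ 2) *
          Real.exp (-(k * ((m : ℝ) - i)) / (560 * m)))

/-- [RP RUN] the process (Uses `S_STEP`, `S_TEL`, `S_AVG`, `S_GOOD`, `S_NUMA`.)

Proof. Suppose there is no rainbow copy. Put `L = log (k + 1)`, `m = C.card ≥ k`,
`m₀ = ⌈2800 L m / k⌉₊` (so `2 ≤ m₀ ≤ m`), `av j = 128 m / (k j)`.
`Inv U s`: `U ⊆ C` and for all `u ∈ S`: `Good H c U (s u)` and `s u = u :: q` for some `q`.
`F U s = ∑_(u ∈ S) psi (av U.card) (s u)`, `stp = step f`,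
`g U = (1 / U.card) ∑_(w ∈ S) ((act f w U).card (1 - a / 2) - 5 (k + 1) ^ 2 (exp (-K / 70) +
2 ^ K (1/2) ^ (act f w U).card))` with `a = av (U.card - 1)`, `K = k U.card / (8 m)`.
`S_TEL`: first hypothesis by `S_GOOD` (2), (3) and the properties of `f` (if `f a u ≠ u` then
`v = f a u ∈ S`, `H.Adj u v`, `c s(u, v) = a`). Second hypothesis by `S_STEP`: all lengths are at most
`k` by `S_GOOD` (4); `av U.card = a (U.card - 1) / U.card`; `0 ≤ a ≤ 1` because
`k (U.card - 1) ≥ k m₀ ≥ 2800 L m ≥ 128 m`; `a K / 2 = 8 U.card / (U.card - 1) ≥ 8`; and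
`[d < K] ≤ 2 ^ K (1/2) ^ d`. Start: `U = C`, `s u = [u]`, `F = S.card` (`phi [u] = 0`), `t = m - m₀`.
The end: `F U' s' ≤ ∑ (s' u).length ≤ k S.card`. `S_AVG` for every `i < m - m₀` with `A w = act f w C`
(`A w ∩ V = act f w V` for `V ⊆ C`), `U.card = m`, `u = m - i`, `α = (1 / u) (1 - a / 2)`,
`β = (1 / u) 5 (k + 1) ^ 2 2 ^ K`, `γ = S.card (1 / u) 5 (k + 1) ^ 2 exp (-K / 70)`, and then `S_NUMA` for
every `w ∈ S` with `d = (act f w C).card`, give
`S.card + ∑_(w ∈ S) (d_w (1 - 3000 L / k) - 1) ≤ k S.card`. So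
`(1 - 3000 L / k) ∑ d_w ≤ k S.card`, but `∑ d_w > D S.card`, `D = k - 1 + 10000 L`, and
`(1 - 3000 L / k) D = k - 1 + 7000 L + 3000 L / k - 3 * 10 ^ 7 L ^ 2 / k ≥ k - 1 + 2000 L ≥ k`
(`L / k ≤ 1 / 6000`), `S.card > 0`: contradiction. -/
def S_RUN : Prop := ∀ (n k : ℕ) (S : Finset (Fin n → Bool)) (H : SimpleGraph (Fin n → Bool))
  (c : Sym2 (Fin n → Bool) → ℕ) (f : ℕ → (Fin n → Bool) → (Fin n → Bool)) (C : Finset ℕ),
  1 ≤ k → 6000 * Real.log ((k : ℝ) + 1) ≤ k → Sys S f →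
  (∀ a, ∀ u ∈ S, f a u ≠ u → H.Adj u (f a u) ∧ c s(u, f a u) = a) → k ≤ C.card →
  (∀ u ∈ S, k ≤ 2 * (act f u C).card) →
  ((k : ℝ) - 1 + 10000 * Real.log ((k : ℝ) + 1)) * S.card < ∑ u ∈ S, ((act f u C).card : ℝ) →
  HasRainbowCopy H c (SimpleGraph.pathGraph (k + 1))

/-- [RP TREE] the path is a tree with `k` edges.

Proof. `pathGraph_connected`; the edges of `pathGraph (k + 1)` are the `s(i, i + 1)`, `i < k`
(`pathGraph_adj`), `k` of them; a connected graph with `k + 1` vertices and `k` edges is a tree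
(`SimpleGraph.isTree_iff_connected_and_card`). -/
def S_TREE : Prop := ∀ k : ℕ, (SimpleGraph.pathGraph (k + 1)).IsTree ∧
  (SimpleGraph.pathGraph (k + 1)).edgeSet.ncard = k

/-- [RP FIN] the theorem (Uses `S_SYS`, `S_RUN`, `S_TREE`.)

Proof. `L = log (k + 1) > 0.69`. By `exStar_le` and `star_value` it suffices: if `H ≤ Q n`, `c` is
proper and there is no rainbow copy then `2 e(H) ≤ min (k - 1) n 2 ^ n + 10000 L 2 ^ n`. If
`n ≤ k - 1` this follows from `e(H) ≤ e(Q n)` (`Q_edges`). Otherwise suppose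
`2 e(H) > D 2 ^ n`, `D = k - 1 + 10000 L`. `exists_core` gives `S` with average degree more than `D`
and all degrees more than `D / 2` in `H[S]`; `exists_large_of_core` gives a vertex of degree more than
`D ≥ k`. If `6000 L ≤ k`: `S_SYS` and `S_RUN` (`C.card ≥ (act f u C).card = (nb H S u).card ≥ k`).
If `k < 6000 L`: as in `Results/MP_233400_co/UpperBound.lean` (with `l = 0`, `j = k`, `embed_main` of
`Finish`), a graph `H[S]` with all degrees more than `k + 8 √k` and a vertex of degree `≥ k` contains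
the tree; here `D / 2 ≥ k + 8 √k`: `10000 L ≥ k + 1 + 16 √k` because `k < 6000 L` and
`16 √k ≤ k / 4 + 256`, `7500 L + 257 ≤ 10000 L` as `2500 * 0.69 ≥ 257`. -/
def S_FIN : Prop := ∀ n k : ℕ, 1 ≤ k →
  (exStar (Q n) (SimpleGraph.pathGraph (k + 1)) : ℝ) ≤
    exStar (Q n) (completeBipartiteGraph (Fin 1) (Fin k)) + 5000 * Real.log ((k : ℝ) + 1) * 2 ^ n

end Pool.Agent.Lib.MP_233400_co.RP
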