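import Mathlib
import Pool.Agent.Lib.MP_233400_co.RP.Stm
import Pool.Agent.Lib.MP_233400_co.Finish

set_option autoImplicit false

/-!
# MP_233400_co, project RP: the theorem from `S_SYS`, `S_RUN`, `S_TREE`
-/

namespace Pool.Agent.Lib.MP_233400_co.RP

open Finset

/-- the leaves at a vertex of a tree with `k` edges are at most `k` -/
lemma FIN_leaves {W : Type*} [Finite W] (T : SimpleGraph W) (v : W) (k : ℕ)
    (hk : T.edgeSet.ncard = k) :
    {u : W | T.Adj v u ∧ ∀ w : W, T.Adj u w → w = v}.ncard ≤ k := by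
  rw [← hk]
  apply Set.ncard_le_ncard_of_injOn (fun u => s(v, u))
  · intro u hu; exact hu.1
  · intro u _ w _ huw
    have h : u = w ∨ v = w ∧ u = v := by simpa using huw
    rcases h with h | ⟨h1, h2⟩
    · exact h
    · rw [h2, h1]

/-- numeric estimate for small `k` -/
lemma FIN_num (k L : ℝ) (hk : 0 ≤ k) (hL : 0.69 < L) (h : k < 6000 * L) :
    2 * (k + 8 * √k) ≤ k - 1 + 10000 * L := by
  have h1 : √k * √k = k := Real.mul_self_sqrt hk
  have h2 : 0 ≤ (√k / 2 - 16) ^ 2 := sq_nonneg _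
  have h3 : 16 * √k ≤ k / 4 + 256 := by
    have h4 : (√k / 2 - 16) ^ 2 = (√k * √k) / 4 - 16 * √k + 256 := by ring
    rw [h4, h1] at h2
    linarith
  linarith

theorem p_FIN : S_SYS → S_RUN → S_TREE → S_FIN := by
  intro hSYS hRUN hTREE n k hk
  classical
  have hk1 : (1 : ℝ) ≤ k := by exact_mod_cast hk
  obtain ⟨L, hLdef⟩ : ∃ L : ℝ, L = Real.log ((k : ℝ) + 1) := ⟨_, rfl⟩
  have hL : 0.69 < L := by
    rw [hLdef]
    have h1 : Real.log 2 ≤ Real.log ((k : ℝ) + 1) :=
      Real.log_le_log (by norm_num) (by linarith)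
    have h2 := Real.log_two_gt_d9
    linarith
  rw [← hLdef]
  have h2n : (0 : ℝ) < 2 ^ n := by positivity
  have hmain : ∀ H : SimpleGraph (Fin n → Bool), H ≤ Q n → ∀ c : Sym2 (Fin n → Bool) → ℕ,
      ProperColouring H c → ¬ HasRainbowCopy H c (SimpleGraph.pathGraph (k + 1)) →
      2 * (H.edgeSet.ncard : ℝ) ≤ ((min (k - 1) n : ℕ) : ℝ) * 2 ^ n + 10000 * L * 2 ^ n := by
    intro H hH c hc hr
    rcases Nat.lt_or_ge (k - 1) n with hn | hn
    · rw [min_eq_left hn.le]
      have hcast : ((k - 1 : ℕ) : ℝ) = (k : ℝ) - 1 := by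
        rw [Nat.cast_sub hk]; norm_num
      rw [hcast]
      by_contra hcon
      push Not at hcon
      apply hr
      obtain ⟨D, hD⟩ : ∃ D : ℝ, D = (k : ℝ) - 1 + 10000 * L := ⟨_, rfl⟩
      obtain ⟨S, hS, hmin⟩ := exists_core H D (by
        have hc2 : (Fintype.card (Fin n → Bool) : ℝ) = 2 ^ n := by simp
        rw [hc2, hD]
        linarith)
      obtain ⟨x0, hx0, hlarge⟩ := exists_large_of_core H D S hS
      have hDk : (k : ℝ) < D := by rw [hD]; linarith
      rcases le_or_gt (6000 * L) k with hLk | hLk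
      · obtain ⟨f, C, hsys, hadj, hcard⟩ := hSYS n H c S hH hc
        refine hRUN n k S H c f C hk (by rw [← hLdef]; exact hLk) hsys hadj ?_ ?_ ?_
        · have h1 : (k : ℝ) < ((nb H S x0).card : ℝ) := hDk.trans hlarge
          have h2 : k < (nb H S x0).card := by exact_mod_cast h1
          rw [← hcard x0 hx0] at h2
          have h3 : (act f x0 C).card ≤ C.card := Finset.card_filter_le _ _
          omega
        · intro u hu
          have h1 : (k : ℝ) < 2 * ((nb H S u).card : ℝ) := hDk.trans (hmin u hu)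
          have h2 : k < 2 * (nb H S u).card := by exact_mod_cast h1
          rw [← hcard u hu] at h2
          omega
        · rw [← hLdef, ← hD]
          refine hS.trans_le (le_of_eq ?_)
          apply Finset.sum_congr rfl
          intro u hu
          rw [hcard u hu]
      · have hT := hTREE k
        have hl := FIN_leaves (SimpleGraph.pathGraph (k + 1)) (0 : Fin (k + 1)) k hT.2
        obtain ⟨j, hj⟩ : ∃ j, {u : Fin (k + 1) | (SimpleGraph.pathGraph (k + 1)).Adj 0 u ∧
            ∀ w : Fin (k + 1), (SimpleGraph.pathGraph (k + 1)).Adj u w → w = 0}.ncard + j = k :=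
          ⟨k - {u : Fin (k + 1) | (SimpleGraph.pathGraph (k + 1)).Adj 0 u ∧
            ∀ w : Fin (k + 1), (SimpleGraph.pathGraph (k + 1)).Adj u w → w = 0}.ncard,
            Nat.add_sub_cancel' hl⟩
        have hjk : (j : ℝ) ≤ k := by
          have : j ≤ k := by omega
          exact_mod_cast this
        refine embed_main hc ?_ hT.1 hT.2 (r := 0) (j := j) hj hx0 ?_ ?_
        · intro x y hxy A hA
          exact Q_codeg hxy A fun w hw => ⟨hH (hA w hw).1, hH (hA w hw).2⟩
        · have h1 : (k : ℝ) < ((nb H S x0).card : ℝ) := hDk.trans hlarge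
          have h2 : k < (nb H S x0).card := by exact_mod_cast h1
          omega
        · intro u hu
          have h1 := hmin u hu
          have h2 : √(j : ℝ) ≤ √(k : ℝ) := Real.sqrt_le_sqrt hjk
          have h3 := FIN_num (k : ℝ) L (by linarith) hL hLk
          rw [← hD] at h3
          linarith
    · rw [min_eq_right hn]
      have h1 : H.edgeSet.ncard ≤ (Q n).edgeSet.ncard :=
        Set.ncard_le_ncard (SimpleGraph.edgeSet_mono hH) (Set.toFinite _)
      have h2 : 2 * H.edgeSet.ncard ≤ n * 2 ^ n := by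
        rw [← Q_edges n]; omega
      have h3 : 2 * (H.edgeSet.ncard : ℝ) ≤ (n : ℝ) * 2 ^ n := by exact_mod_cast h2
      have h4 : 0 ≤ 10000 * L * 2 ^ n := by
        apply mul_nonneg _ h2n.le
        linarith
      linarith
  have hstar := star_value hk n
  have hstarR : 2 * (exStar (Q n) (completeBipartiteGraph (Fin 1) (Fin k)) : ℝ) =
      ((min (k - 1) n : ℕ) : ℝ) * 2 ^ n := by exact_mod_cast hstar
  obtain ⟨B, hB⟩ : ∃ B : ℝ, B = (exStar (Q n) (completeBipartiteGraph (Fin 1) (Fin k)) : ℝ) +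
      5000 * L * 2 ^ n := ⟨_, rfl⟩
  have hB0 : 0 ≤ B := by
    rw [hB]
    have h4 : 0 ≤ 5000 * L * 2 ^ n := by
      apply mul_nonneg _ h2n.le
      linarith
    have h5 : (0 : ℝ) ≤ (exStar (Q n) (completeBipartiteGraph (Fin 1) (Fin k)) : ℝ) :=
      Nat.cast_nonneg _
    linarith
  have hfl : exStar (Q n) (SimpleGraph.pathGraph (k + 1)) ≤ ⌊B⌋₊ := by
    apply exStar_le
    intro H hH c hc hr
    apply Nat.le_floor
    have h1 := hmain H hH c hc hr
    rw [hB]
    linarith
  rw [← hB]
  calc (exStar (Q n) (SimpleGraph.pathGraph (k + 1)) : ℝ) ≤ (⌊B⌋₊ : ℝ) := by exact_mod_cast hfl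
    _ ≤ B := Nat.floor_le hB0

end Pool.Agent.Lib.MP_233400_co.RP
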