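import Pool.Agent.Lib.MP_233400_co.RP.Stm

set_option autoImplicit false

namespace Pool.Agent.Lib.MP_233400_co.RP

open Finset

private theorem GOOD_cols_suffix {X : Type*} (c : Sym2 X → ℕ) (l p : List X) (h : l <:+ p) :
    cols c l <:+ cols c p := by
  induction p with
  | nil =>
    rw [List.suffix_nil] at h
    subst h
    exact List.suffix_refl _
  | cons x p ih =>
    rcases List.suffix_cons_iff.1 h with h | h
    · subst h
      exact List.suffix_refl _
    · refine (ih h).trans ?_
      cases p with
      | nil => exact List.suffix_refl _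
      | cons y r => exact List.suffix_cons _ _

private theorem GOOD_head {X : Type*} [DecidableEq X] (u : X) (p : List X) (h : u ∈ p) :
    ∃ q', p.dropWhile (fun x => !decide (x = u)) = u :: q' := by
  induction p with
  | nil => exact absurd h (List.not_mem_nil)
  | cons x p ih =>
    by_cases hx : x = u
    · subst hx
      refine ⟨p, ?_⟩
      simp [List.dropWhile]
    · have h' : u ∈ p := by
        rcases List.mem_cons.1 h with h | h
        · exact absurd h.symm hx
        · exact h
      obtain ⟨q', hq⟩ := ih h'
      refine ⟨q', ?_⟩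
      rw [List.dropWhile_cons_of_pos (by simp [hx])]
      exact hq

private theorem GOOD_mono {X : Type*} {H : SimpleGraph X} {c : Sym2 X → ℕ} {U : Finset ℕ}
    {p : List X} (a : ℕ) (h : Good H c U p) : Good H c (U.erase a) p :=
  ⟨h.1, h.2.1, h.2.2.1, fun b hb hbU => h.2.2.2 b hb (Finset.mem_of_mem_erase hbU)⟩

private theorem GOOD_suffix {X : Type*} {H : SimpleGraph X} {c : Sym2 X → ℕ} {U : Finset ℕ}
    {l p : List X} (hl : l <:+ p) (h : Good H c U p) : Good H c U l := by
  have hc := GOOD_cols_suffix c l p hl
  exact ⟨h.1.sublist hl.sublist, h.2.1.suffix hl, h.2.2.1.sublist hc.sublist,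
    fun b hb => h.2.2.2 b (hc.subset hb)⟩

private theorem GOOD_len {X : Type*} (c : Sym2 X → ℕ) (p : List X) :
    (cols c p).length = p.length - 1 := by
  induction p with
  | nil => rfl
  | cons x p ih =>
    cases p with
    | nil => rfl
    | cons y r =>
      show (cols c (y :: r)).length + 1 = _
      rw [ih]
      simp

private theorem GOOD_get {X : Type*} (c : Sym2 X → ℕ) (p : List X) (i : ℕ)
    (h : i + 1 < p.length) (h' : i < (cols c p).length) :
    (cols c p)[i] = c s(p[i], p[i + 1]) := by
  induction p generalizing i with
  | nil => exact absurd h (by simp)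
  | cons x p ih =>
    cases p with
    | nil => exact absurd h (by simp)
    | cons y r =>
      cases i with
      | zero => rfl
      | succ i =>
        have h1 : i + 1 < (y :: r).length := by simpa using h
        have h2 : i < (cols c (y :: r)).length := by
          rw [GOOD_len]
          simp at h1 ⊢
          omega
        exact ih i h1 h2

theorem p_GOOD : S_GOOD := by
  intro X _ H c U
  refine ⟨?_, ?_, ?_, ?_⟩
  · intro u
    refine ⟨by simp, by simp, ?_, ?_⟩
    · show ([] : List ℕ).Nodup
      exact List.nodup_nil
    · intro a ha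
      exact absurd ha (List.not_mem_nil)
  · intro u v q a hg huv hc ha
    unfold ext
    split_ifs with hu
    · exact ⟨GOOD_mono a (GOOD_suffix (List.dropWhile_suffix _) hg), GOOD_head u (v :: q) hu⟩
    · refine ⟨?_, v :: q, rfl⟩
      obtain ⟨h1, h2, h3, h4⟩ := hg
      have hcols : cols c (u :: v :: q) = a :: cols c (v :: q) := by
        show c s(u, v) :: cols c (v :: q) = _
        rw [hc]
      refine ⟨List.nodup_cons.2 ⟨hu, h1⟩, ?_, ?_, ?_⟩
      · exact List.isChain_cons_cons.2 ⟨huv, h2⟩
      · rw [hcols]
        exact List.nodup_cons.2 ⟨fun h => h4 a h ha, h3⟩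
      · rw [hcols]
        intro b hb hbU
        rcases List.mem_cons.1 hb with hb | hb
        · subst hb
          exact Finset.notMem_erase _ _ hbU
        · exact h4 b hb (Finset.mem_of_mem_erase hbU)
  · intro u q a hg
    have he : ext (u :: q) u = u :: q := by
      unfold ext
      rw [if_pos (List.mem_cons_self)]
      simp [List.dropWhile]
    rw [he]
    exact ⟨GOOD_mono a hg, rfl⟩
  · intro k p hg hk
    obtain ⟨h1, h2, h3, -⟩ := hg
    have hlt : ∀ i : Fin (k + 1), (i : ℕ) < p.length := fun i => lt_of_lt_of_le i.2 hk
    have hadj : ∀ i (h : i + 1 < p.length), H.Adj p[i] p[i + 1] := fun i h =>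
      (List.isChain_iff_getElem.1 h2) i h
    refine ⟨fun i => p[(i : ℕ)]'(hlt i), ?_, ?_, ?_⟩
    · intro i j hij
      exact Fin.ext ((h1.getElem_inj_iff).1 hij)
    · intro i j hij
      rcases SimpleGraph.pathGraph_adj.1 hij with h | h
      · have h' : (i : ℕ) + 1 < p.length := h ▸ hlt j
        have := hadj i h'
        simp only [h] at this
        exact this
      · have h' : (j : ℕ) + 1 < p.length := h ▸ hlt i
        have := hadj j h'
        simp only [h] at this
        exact this.symm
    · have key : ∀ e ∈ (SimpleGraph.pathGraph (k + 1)).edgeSet, ∃ (i : ℕ) (hi : i + 1 < k + 1),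
          e = s(⟨i, by omega⟩, ⟨i + 1, hi⟩) := by
        intro e
        induction e using Sym2.ind with
        | _ x y =>
          intro he
          rw [SimpleGraph.mem_edgeSet] at he
          rcases SimpleGraph.pathGraph_adj.1 he with h | h
          · have hy : (x : ℕ) + 1 < k + 1 := h ▸ y.2
            have e1 : y = ⟨(x : ℕ) + 1, hy⟩ := Fin.ext h.symm
            refine ⟨x, hy, ?_⟩
            conv_lhs => rw [e1]
          · have hx : (y : ℕ) + 1 < k + 1 := h ▸ x.2
            have e1 : x = ⟨(y : ℕ) + 1, hx⟩ := Fin.ext h.symm
            refine ⟨y, hx, ?_⟩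
            rw [Sym2.eq_swap]
            conv_lhs => rw [e1]
      intro e he e' he' hee
      obtain ⟨i, hi, rfl⟩ := key e he
      obtain ⟨j, hj, rfl⟩ := key e' he'
      have hi' : i < (cols c p).length := by rw [GOOD_len]; omega
      have hj' : j < (cols c p).length := by rw [GOOD_len]; omega
      have e1 := GOOD_get c p i (by omega) hi'
      have e2 := GOOD_get c p j (by omega) hj'
      have hee' : c s(p[i]'(by omega), p[i + 1]'(by omega)) =
          c s(p[j]'(by omega), p[j + 1]'(by omega)) := hee
      rw [← e1, ← e2] at hee'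
      have := (h3.getElem_inj_iff).1 hee'
      subst this
      rfl

end Pool.Agent.Lib.MP_233400_co.RP
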