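import Pool.Agent.Lib.MP_233400_co.RP.Stm

set_option autoImplicit false

namespace Pool.Agent.Lib.MP_233400_co.RP

open Finset

/-- the length of what is left of `q` after the erasure of everything in front of `v` -/
private noncomputable def LEN_L {n : ℕ} (q : List (Fin n → Bool)) (v : Fin n → Bool) : ℝ :=
  ((q.dropWhile (fun x => !decide (x = v))).length : ℝ)

private theorem LEN_self {n : ℕ} (z : Fin n → Bool) (r : List (Fin n → Bool)) :
    LEN_L (z :: r) z = (r.length : ℝ) + 1 := by
  simp [LEN_L, List.dropWhile_cons]

private theorem LEN_ne {n : ℕ} {z v : Fin n → Bool} (r : List (Fin n → Bool)) (h : z ≠ v) :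
    LEN_L (z :: r) v = LEN_L r v := by
  simp [LEN_L, List.dropWhile_cons, h]

private theorem LEN_pot_nonneg {n : ℕ} (u : Fin n → Bool) (q : List (Fin n → Bool)) :
    ∀ w : ℕ, 0 ≤ pot u w q := by
  induction q with
  | nil => intro w; simp [pot]
  | cons z r ih =>
    intro w
    unfold pot
    have := ih (w + 1)
    positivity

private theorem LEN_sum {n : ℕ} (u : Fin n → Bool) (N : Finset (Fin n → Bool))
    (hN : ∀ v ∈ N, hammingDist u v = 1) (q : List (Fin n → Bool)) :
    ∀ w : ℕ, q.Nodup →
      ∑ v ∈ N, (if v ∈ q then (w : ℝ) + (q.length : ℝ) - LEN_L q v else 0) ≤ 4 * pot u w q := by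
  induction q with
  | nil => intro w _; simp [pot]
  | cons z r ih =>
    intro w hq
    rw [List.nodup_cons] at hq
    have hstep : ∀ v ∈ N, (if v ∈ z :: r then (w : ℝ) + ((z :: r).length : ℝ) - LEN_L (z :: r) v
        else 0) = (if v = z then (w : ℝ) else 0) +
          (if v ∈ r then ((w + 1 : ℕ) : ℝ) + (r.length : ℝ) - LEN_L r v else 0) := by
      intro v _
      by_cases hv : v = z
      · subst hv
        rw [if_pos List.mem_cons_self, if_pos rfl, if_neg hq.1, LEN_self]
        push_cast [List.length_cons]
        ring
      · rw [if_neg hv]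
        by_cases hr : v ∈ r
        · rw [if_pos (List.mem_cons_of_mem _ hr), if_pos hr, LEN_ne r (Ne.symm hv)]
          push_cast [List.length_cons]
          ring
        · rw [if_neg (by
            intro h
            rcases List.mem_cons.1 h with h | h
            · exact hv h
            · exact hr h), if_neg hr]
          ring
    rw [sum_congr rfl hstep, sum_add_distrib]
    have h1 := ih (w + 1) hq.2
    have h2 : ∑ v ∈ N, (if v = z then (w : ℝ) else 0) ≤ 4 * ((w : ℝ) * (1 / 4) ^ hammingDist u z) := by
      rw [sum_ite_eq']
      split_ifs with h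
      · rw [hN z h]
        apply le_of_eq
        ring
      · positivity
    unfold pot
    linarith

private theorem LEN_size {n : ℕ} (u : Fin n → Bool) (q : List (Fin n → Bool)) :
    ∀ w : ℕ, u ∉ q →
      4 * pot u w q ≤ (w : ℝ) * (q.length : ℝ) + (q.length : ℝ) * ((q.length : ℝ) - 1) / 2 := by
  induction q with
  | nil => intro w _; simp [pot]
  | cons z r ih =>
    intro w hu
    have hz : u ≠ z := fun h => hu (h ▸ List.mem_cons_self)
    have hr : u ∉ r := fun h => hu (List.mem_cons_of_mem _ h)
    have h1 := ih (w + 1) hr
    have hD : 1 ≤ hammingDist u z := by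
      have := (hammingDist_pos (x := u) (y := z)).2 hz
      omega
    have h2 : (1 / 4 : ℝ) ^ hammingDist u z ≤ 1 / 4 := by
      calc (1 / 4 : ℝ) ^ hammingDist u z ≤ (1 / 4 : ℝ) ^ 1 :=
            pow_le_pow_of_le_one (by norm_num) (by norm_num) hD
        _ = 1 / 4 := pow_one _
    have h3 : 4 * ((w : ℝ) * (1 / 4) ^ hammingDist u z) ≤ (w : ℝ) := by
      have hw : (0 : ℝ) ≤ w := Nat.cast_nonneg w
      nlinarith
    unfold pot
    push_cast [List.length_cons] at h1 ⊢
    nlinarith

theorem p_LEN : S_LEN := by
  intro n u q N hN hnd
  rw [List.nodup_cons] at hnd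
  have hphi : phi (u :: q) = pot u 2 q := rfl
  refine ⟨?_, ?_, ?_⟩
  · have hlen : ∀ v ∈ N, ((ext (u :: q) v).length : ℝ) = (((u :: q).length : ℝ) + 1) -
        (if v ∈ q then ((2 : ℕ) : ℝ) + (q.length : ℝ) - LEN_L q v else 0) := by
      intro v hv
      have hne : u ≠ v := by
        intro h
        have := hN v hv
        rw [h, hammingDist_self] at this
        omega
      by_cases hq : v ∈ q
      · have : ext (u :: q) v = q.dropWhile (fun x => !decide (x = v)) := by
          unfold ext
          rw [if_pos (List.mem_cons_of_mem _ hq), List.dropWhile_cons]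
          simp [hne]
        rw [this, if_pos hq]
        have h' : ((q.dropWhile (fun x => !decide (x = v))).length : ℝ) = LEN_L q v := rfl
        rw [h']
        push_cast [List.length_cons]
        ring
      · have : ext (u :: q) v = v :: u :: q := by
          unfold ext
          rw [if_neg (by
            intro h
            rcases List.mem_cons.1 h with h | h
            · exact hne h.symm
            · exact hq h)]
        rw [this, if_neg hq]
        push_cast [List.length_cons]
        ring
    rw [sum_congr rfl hlen, sum_sub_distrib, sum_const, nsmul_eq_mul, hphi]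
    have := LEN_sum u N hN q 2 hnd.2
    linarith
  · rw [hphi]
    exact LEN_pot_nonneg u q 2
  · rw [hphi]
    have := LEN_size u q 2 hnd.1
    push_cast [List.length_cons] at this ⊢
    have h0 : (0 : ℝ) ≤ (q.length : ℝ) := Nat.cast_nonneg _
    nlinarith

end Pool.Agent.Lib.MP_233400_co.RP
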