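import Pool.Agent.Lib.MP_233400_co.RP.Stm
import Mathlib

set_option autoImplicit false

/-!
# MP_233400_co, project RP, piece NUMA: the numerical estimate
-/

namespace Pool.Agent.Lib.MP_233400_co.RP

open Finset

/-- a partial harmonic sum -/
private theorem NUMA_harm (m N : ℕ) (h : N + 2 ≤ m) :
    ∑ i ∈ Finset.range N, 1 / ((m : ℝ) - i - 1) ≤
      Real.log ((m : ℝ) - 1) - Real.log ((m : ℝ) - N - 1) := by
  have h1 : ∀ i ∈ Finset.range N, 1 / ((m : ℝ) - i - 1) ≤
      (fun j : ℕ => Real.log ((m : ℝ) - j - 1)) i -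
        (fun j : ℕ => Real.log ((m : ℝ) - j - 1)) (i + 1) := by
    intro i hi
    have hi' : i < N := Finset.mem_range.1 hi
    have hi2 : (i : ℝ) + 3 ≤ m := by
      have : i + 3 ≤ m := by omega
      exact_mod_cast this
    have hj : 0 < (m : ℝ) - i - 1 := by linarith
    have hj1 : 0 < (m : ℝ) - ((i + 1 : ℕ) : ℝ) - 1 := by
      push_cast
      linarith
    show 1 / ((m : ℝ) - i - 1) ≤ Real.log ((m : ℝ) - i - 1) -
      Real.log ((m : ℝ) - ((i + 1 : ℕ) : ℝ) - 1)
    have h2 := Real.log_le_sub_one_of_pos (div_pos hj1 hj)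
    rw [Real.log_div hj1.ne' hj.ne'] at h2
    have h3 : ((m : ℝ) - ((i + 1 : ℕ) : ℝ) - 1) / ((m : ℝ) - i - 1) - 1 =
        -(1 / ((m : ℝ) - i - 1)) := by
      push_cast
      field_simp
      ring
    rw [h3] at h2
    linarith
  refine (Finset.sum_le_sum h1).trans ?_
  rw [Finset.sum_range_sub']
  simp

/-- one error term -/
private theorem NUMA_err (k m d : ℕ) (u L : ℝ) (hk : (0 : ℝ) < k) (hm : (0 : ℝ) < m)
    (hkd : (k : ℝ) ≤ 2 * d) (hu : 0 < u) (hum : u ≤ m) (hy : 2800 * L ≤ k * u / m) :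
    (2 : ℝ) ^ (k * u / (8 * m)) * (1 - u / (2 * m)) ^ d ≤ Real.exp (-(5 * L)) ∧
      Real.exp (-(k * u) / (560 * m)) ≤ Real.exp (-(5 * L)) := by
  have hy0 : 0 < k * u / m := by positivity
  have e1 : k * u / (8 * m) = (k * u / m) / 8 := by
    field_simp
  have e2 : -(k * u) / (560 * m) = -((k * u / m) / 560) := by
    field_simp
  constructor
  · have h1 : (2 : ℝ) ^ (k * u / (8 * m)) = Real.exp (Real.log 2 * ((k * u / m) / 8)) := by
      rw [Real.rpow_def_of_pos (by norm_num), e1]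
    have h2 : 0 ≤ 1 - u / (2 * m) := by
      rw [sub_nonneg, div_le_one (by positivity)]
      linarith
    have h3 : 1 - u / (2 * m) ≤ Real.exp (-(u / (2 * m))) := by
      have := Real.add_one_le_exp (-(u / (2 * m)))
      linarith
    have h4 : (1 - u / (2 * m)) ^ d ≤ Real.exp (-((k * u / m) / 4)) := by
      calc (1 - u / (2 * m)) ^ d ≤ (Real.exp (-(u / (2 * m)))) ^ d :=
            pow_le_pow_left₀ h2 h3 d
        _ = Real.exp (d * (-(u / (2 * m)))) := by rw [← Real.exp_nat_mul]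
        _ ≤ Real.exp (-((k * u / m) / 4)) := by
            apply Real.exp_le_exp.2
            have h5 : (k * u / m) / 4 = (k / 2) * (u / (2 * m)) := by
              field_simp
              ring
            have h6 : (k / 2 : ℝ) * (u / (2 * m)) ≤ d * (u / (2 * m)) :=
              mul_le_mul_of_nonneg_right (by linarith) (by positivity)
            rw [h5]
            linarith
    rw [h1]
    calc Real.exp (Real.log 2 * ((k * u / m) / 8)) * (1 - u / (2 * m)) ^ d
        ≤ Real.exp (Real.log 2 * ((k * u / m) / 8)) * Real.exp (-((k * u / m) / 4)) :=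
          mul_le_mul_of_nonneg_left h4 (Real.exp_pos _).le
      _ = Real.exp (Real.log 2 * ((k * u / m) / 8) + -((k * u / m) / 4)) := by
          rw [← Real.exp_add]
      _ ≤ Real.exp (-(5 * L)) := by
          apply Real.exp_le_exp.2
          have h7 : Real.log 2 ≤ 1 := by
            have := Real.log_two_lt_d9
            linarith
          have h8 : Real.log 2 * ((k * u / m) / 8) ≤ 1 * ((k * u / m) / 8) :=
            mul_le_mul_of_nonneg_right h7 (by positivity)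
          linarith
  · apply Real.exp_le_exp.2
    rw [e2]
    linarith

theorem p_NUMA : S_NUMA := by
  intro k m m₀ d hk hkL hkm hkd hm₀
  obtain ⟨L, hL⟩ : ∃ L : ℝ, L = Real.log ((k : ℝ) + 1) := ⟨_, rfl⟩
  rw [← hL] at hkL hm₀ ⊢
  have hk0 : (1 : ℝ) ≤ k := by exact_mod_cast hk
  have hkpos : (0 : ℝ) < k := by linarith
  have hL1 : (1 / 2 : ℝ) ≤ L := by
    have h1 : Real.log 2 ≤ L := by
      rw [hL]
      exact Real.log_le_log (by norm_num) (by linarith)
    have h2 := Real.log_two_gt_d9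
    linarith
  have hk3 : (3000 : ℝ) ≤ k := by linarith
  have hmk : (k : ℝ) ≤ m := by exact_mod_cast hkm
  have hmpos : (0 : ℝ) < m := by linarith
  have hkd' : (k : ℝ) ≤ 2 * d := by exact_mod_cast hkd
  have hLpos : 0 < L := by linarith
  have hLk : L / k ≤ 1 / 6000 := by
    rw [div_le_iff₀ hkpos]
    linarith
  have hm₀1 : 2800 * L * m / k ≤ m₀ := by
    rw [hm₀]
    exact Nat.le_ceil _
  have hm₀2 : (m₀ : ℝ) < 2800 * L * m / k + 1 := by
    rw [hm₀]
    exact Nat.ceil_lt_add_one (by positivity)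
  have e0 : 2800 * L * m / k = 2800 * m * (L / k) := by ring
  have h1400 : (1400 : ℝ) ≤ m₀ := by
    have h1 : 2800 * L * 1 ≤ 2800 * L * (m / k) :=
      mul_le_mul_of_nonneg_left ((one_le_div hkpos).2 hmk) (by positivity)
    have h2 : 2800 * L * (m / k) = 2800 * L * m / k := by ring
    linarith
  have hm₀m : (m₀ : ℝ) + 2 ≤ m := by
    have h1 : 2800 * m * (L / k) ≤ 2800 * m * (1 / 6000) :=
      mul_le_mul_of_nonneg_left hLk (by positivity)
    linarith
  have hm₀m' : m₀ + 2 ≤ m := by exact_mod_cast hm₀m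
  have hm₀pos : (0 : ℝ) < m₀ := by linarith
  have hcast : (((m - m₀ : ℕ) : ℕ) : ℝ) = (m : ℝ) - m₀ := by
    rw [Nat.cast_sub (by omega)]
  -- the harmonic sum
  have hharm : ∑ i ∈ Finset.range (m - m₀), 1 / ((m : ℝ) - i - 1) ≤ L := by
    refine (NUMA_harm m (m - m₀) (by
      have : 1400 ≤ m₀ := by exact_mod_cast h1400
      omega)).trans ?_
    rw [hcast]
    have h1 : (m : ℝ) - ((m : ℝ) - m₀) - 1 = (m₀ : ℝ) - 1 := by ring
    rw [h1, sub_le_iff_le_add, hL, ← Real.log_mul (by linarith) (by linarith)]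
    apply Real.log_le_log (by linarith)
    have h2 : 1400 * L * m / k ≤ (m₀ : ℝ) - 1 := by
      have : 1400 * L * m / k = (2800 * L * m / k) / 2 := by ring
      rw [this]
      linarith
    have h3 : (k : ℝ) * (1400 * L * m / k) ≤ k * ((m₀ : ℝ) - 1) :=
      mul_le_mul_of_nonneg_left h2 hkpos.le
    have h4 : (k : ℝ) * (1400 * L * m / k) = 1400 * L * m := by
      field_simp
    have h5 : 1 * (m : ℝ) ≤ 1400 * L * m :=
      mul_le_mul_of_nonneg_right (by linarith) hmpos.le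
    have h6 : (0 : ℝ) ≤ (m₀ : ℝ) - 1 := by linarith
    linarith
  -- the exponential
  obtain ⟨P, hP⟩ : ∃ P : ℝ, P = Real.exp (-(5 * L)) := ⟨_, rfl⟩
  have hPpos : 0 < P := by rw [hP]; exact Real.exp_pos _
  have hP1 : P * ((k : ℝ) + 1) ^ 5 = 1 := by
    have h1 : ((k : ℝ) + 1) ^ 5 = Real.exp (5 * L) := by
      have h2 : Real.exp L = (k : ℝ) + 1 := by
        rw [hL]
        exact Real.exp_log (by linarith)
      rw [← h2, ← Real.exp_nat_mul]
      norm_num
    rw [h1, hP, ← Real.exp_add, neg_add_cancel, Real.exp_zero]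
  obtain ⟨E, hE⟩ : ∃ E : ℝ, E = 10 * ((k : ℝ) + 1) ^ 2 * P / m₀ := ⟨_, rfl⟩
  have hE0 : 0 ≤ E := by rw [hE]; positivity
  have hterm : ∀ i ∈ Finset.range (m - m₀),
      (d : ℝ) / m - 64 * d / k * (1 / ((m : ℝ) - i - 1)) - E ≤
      ((1 / ((m : ℝ) - i)) * (1 - 64 * m / (k * ((m : ℝ) - i - 1))) * (d * (((m : ℝ) - i) / m)) -
        (1 / ((m : ℝ) - i)) * (5 * ((k : ℝ) + 1) ^ 2) * 2 ^ (k * ((m : ℝ) - i) / (8 * m)) *
          (1 - ((m : ℝ) - i) / (2 * m)) ^ d -
        (1 / ((m : ℝ) - i)) * (5 * ((k : ℝ) + 1) ^ 2) *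
          Real.exp (-(k * ((m : ℝ) - i)) / (560 * m))) := by
    intro i hi
    have hi' : i < m - m₀ := Finset.mem_range.1 hi
    have hi2 : (i : ℝ) + m₀ + 1 ≤ m := by
      have : i + m₀ + 1 ≤ m := by omega
      exact_mod_cast this
    have hi0 : (0 : ℝ) ≤ i := Nat.cast_nonneg _
    obtain ⟨u, hu⟩ : ∃ u : ℝ, u = (m : ℝ) - i := ⟨_, rfl⟩
    rw [← hu]
    have hu1 : (m₀ : ℝ) + 1 ≤ u := by rw [hu]; linarith
    have hupos : 0 < u := by linarith
    have hum : u ≤ m := by rw [hu]; linarith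
    have hy : 2800 * L ≤ k * u / m := by
      rw [le_div_iff₀ hmpos]
      have h1 : k * (2800 * L * m / k) ≤ (k : ℝ) * u :=
        mul_le_mul_of_nonneg_left (by linarith) hkpos.le
      have h2 : (k : ℝ) * (2800 * L * m / k) = 2800 * L * m := by
        field_simp
      linarith
    obtain ⟨b1, b2⟩ := NUMA_err k m d u L hkpos hmpos hkd' hupos hum hy
    rw [← hP] at b1 b2
    have c0 : 1 / u ≤ 1 / (m₀ : ℝ) := one_div_le_one_div_of_le hm₀pos (by linarith)
    have c1 : (1 / u) * (5 * ((k : ℝ) + 1) ^ 2) ≤ (1 / (m₀ : ℝ)) * (5 * ((k : ℝ) + 1) ^ 2) :=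
      mul_le_mul_of_nonneg_right c0 (by positivity)
    have c2 : (1 / u) * (5 * ((k : ℝ) + 1) ^ 2) * 2 ^ (k * u / (8 * m)) *
        (1 - u / (2 * m)) ^ d ≤ (1 / (m₀ : ℝ)) * (5 * ((k : ℝ) + 1) ^ 2) * P := by
      rw [mul_assoc _ ((2 : ℝ) ^ _) _]
      refine mul_le_mul c1 b1 ?_ (by positivity)
      have : 0 ≤ 1 - u / (2 * m) := by
        rw [sub_nonneg, div_le_one (by positivity)]
        linarith
      positivity
    have c3 : (1 / u) * (5 * ((k : ℝ) + 1) ^ 2) * Real.exp (-(k * u) / (560 * m)) ≤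
        (1 / (m₀ : ℝ)) * (5 * ((k : ℝ) + 1) ^ 2) * P :=
      mul_le_mul c1 b2 (Real.exp_pos _).le (by positivity)
    have c4 : E = (1 / (m₀ : ℝ)) * (5 * ((k : ℝ) + 1) ^ 2) * P +
        (1 / (m₀ : ℝ)) * (5 * ((k : ℝ) + 1) ^ 2) * P := by
      rw [hE]
      ring
    have c5 : (1 / u) * (1 - 64 * m / (k * (u - 1))) * (d * (u / m)) =
        (d : ℝ) / m - 64 * d / k * (1 / (u - 1)) := by
      have hu1' : u - 1 ≠ 0 := by
        have : 0 < u - 1 := by linarith
        exact this.ne'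
      field_simp
    rw [c5, c4]
    linarith
  refine le_trans ?_ (Finset.sum_le_sum hterm)
  rw [Finset.sum_sub_distrib, Finset.sum_sub_distrib, Finset.sum_const, Finset.sum_const,
    Finset.card_range, nsmul_eq_mul, nsmul_eq_mul, ← Finset.mul_sum, hcast]
  have hd0 : (0 : ℝ) < d := by linarith
  -- the errors
  have herr : ((m : ℝ) - m₀) * E ≤ 1 := by
    have h1 : ((m : ℝ) - m₀) * E ≤ m * E := mul_le_mul_of_nonneg_right (by linarith) hE0
    have h2 : (m : ℝ) / m₀ ≤ k := by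
      rw [div_le_iff₀ hm₀pos]
      have h3 : k * (2800 * L * m / k) ≤ (k : ℝ) * m₀ :=
        mul_le_mul_of_nonneg_left hm₀1 hkpos.le
      have h4 : (k : ℝ) * (2800 * L * m / k) = 2800 * L * m := by
        field_simp
      have h5 : 1 * (m : ℝ) ≤ 2800 * L * m :=
        mul_le_mul_of_nonneg_right (by linarith) hmpos.le
      linarith
    have h3 : m * E = (m : ℝ) / m₀ * (10 * ((k : ℝ) + 1) ^ 2 * P) := by
      rw [hE]
      ring
    have h4 : (m : ℝ) / m₀ * (10 * ((k : ℝ) + 1) ^ 2 * P) ≤ k * (10 * ((k : ℝ) + 1) ^ 2 * P) :=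
      mul_le_mul_of_nonneg_right h2 (by positivity)
    have h5 : k * (10 * ((k : ℝ) + 1) ^ 2 * P) ≤ P * ((k : ℝ) + 1) ^ 5 := by
      have h6 : (k : ℝ) * 10 * ((k : ℝ) + 1) ^ 2 ≤ ((k : ℝ) + 1) ^ 5 := by
        have h7 : (k : ℝ) * 10 ≤ ((k : ℝ) + 1) ^ 3 := by nlinarith
        calc (k : ℝ) * 10 * ((k : ℝ) + 1) ^ 2 ≤ ((k : ℝ) + 1) ^ 3 * ((k : ℝ) + 1) ^ 2 :=
              mul_le_mul_of_nonneg_right h7 (by positivity)
          _ = ((k : ℝ) + 1) ^ 5 := by ring
      have := mul_le_mul_of_nonneg_left h6 hPpos.le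
      linarith
    linarith
  -- the main term
  have hmain : (d : ℝ) * (1 - 3000 * L / k) ≤
      ((m : ℝ) - m₀) * (d / m) - 64 * d / k * ∑ i ∈ Finset.range (m - m₀),
        1 / ((m : ℝ) - i - 1) := by
    have h1 : 64 * (d : ℝ) / k * ∑ i ∈ Finset.range (m - m₀), 1 / ((m : ℝ) - i - 1) ≤
        64 * d / k * L := mul_le_mul_of_nonneg_left hharm (by positivity)
    have h2 : ((m : ℝ) - m₀) * (d / m) = d - d * (m₀ / m) := by
      field_simp
    have h3 : (m₀ : ℝ) / m ≤ 2800 * (L / k) + 1 / k := by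
      rw [div_le_iff₀ hmpos]
      have h4 : (2800 * (L / k) + 1 / k) * m = 2800 * L * m / k + m / k := by ring
      have h5 : (1 : ℝ) ≤ m / k := (one_le_div hkpos).2 hmk
      linarith
    have h4 : d * ((m₀ : ℝ) / m) ≤ d * (2800 * (L / k) + 1 / k) :=
      mul_le_mul_of_nonneg_left h3 hd0.le
    have h5 : 1 / (k : ℝ) ≤ 136 * (L / k) := by
      rw [← mul_div_assoc]
      exact div_le_div_of_nonneg_right (by linarith) hkpos.le
    have h6 : d * (1 / (k : ℝ)) ≤ d * (136 * (L / k)) := mul_le_mul_of_nonneg_left h5 hd0.le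
    have h7 : 64 * (d : ℝ) / k * L = 64 * (d * (L / k)) := by ring
    have h8 : (d : ℝ) * (1 - 3000 * L / k) = d - 3000 * (d * (L / k)) := by ring
    have h9 : (d : ℝ) * (2800 * (L / k) + 1 / k) = 2800 * (d * (L / k)) + d * (1 / k) := by ring
    have h10 : (d : ℝ) * (136 * (L / k)) = 136 * (d * (L / k)) := by ring
    linarith
  linarith

end Pool.Agent.Lib.MP_233400_co.RP
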