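import Pool.Agent.Lib.MP_233400_co.RP.Stm

set_option autoImplicit false

/-!
# MP_233400_co, project RP: the potential after a move
-/

namespace Pool.Agent.Lib.MP_233400_co.RP

open Finset

theorem PHI_pot_nonneg {n : ℕ} (u : Fin n → Bool) (q : List (Fin n → Bool)) :
    ∀ w : ℕ, 0 ≤ pot u w q := by
  induction q with
  | nil => intro w; simp [pot]
  | cons z q ih =>
    intro w
    rw [pot]
    exact add_nonneg (mul_nonneg (Nat.cast_nonneg _) (by positivity)) (ih _)

theorem PHI_pot_mono {n : ℕ} (u : Fin n → Bool) (q : List (Fin n → Bool)) :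
    ∀ w w' : ℕ, w ≤ w' → pot u w q ≤ pot u w' q := by
  induction q with
  | nil => intro w w' _; simp [pot]
  | cons z q ih =>
    intro w w' h
    rw [pot, pot]
    refine add_le_add (mul_le_mul_of_nonneg_right (by exact_mod_cast h) (by positivity)) ?_
    exact ih _ _ (by omega)

theorem PHI_pot_succ {n : ℕ} (u : Fin n → Bool) (q : List (Fin n → Bool)) :
    ∀ w : ℕ, 2 ≤ w → pot u (w + 1) q ≤ 3 / 2 * pot u w q := by
  induction q with
  | nil => intro w _; simp [pot]
  | cons z q ih =>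
    intro w h
    rw [pot, pot, mul_add]
    refine add_le_add ?_ (ih _ (by omega))
    have h2 : (2 : ℝ) ≤ (w : ℝ) := by exact_mod_cast h
    rw [← mul_assoc]
    refine mul_le_mul_of_nonneg_right ?_ (by positivity)
    push_cast
    linarith

theorem PHI_drop {n : ℕ} (v : Fin n → Bool) (q : List (Fin n → Bool)) :
    ∀ w : ℕ, 2 ≤ w → phi (q.dropWhile (fun x => !decide (x = v))) ≤ pot v w q := by
  induction q with
  | nil => intro w _; simp [phi, pot]
  | cons z q ih =>
    intro w h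
    have h0 : (0 : ℝ) ≤ (w : ℝ) * (1 / 4) ^ hammingDist v z := by positivity
    rw [List.dropWhile_cons]
    by_cases hz : z = v
    · rw [if_neg (by simp [hz]), phi, pot, hz]
      have := PHI_pot_mono v q 2 (w + 1) (by omega)
      rw [hz] at h0
      linarith
    · rw [if_pos (by simp [hz]), pot]
      have := ih (w + 1) (by omega)
      linarith

theorem PHI_move {n : ℕ} (u v : Fin n → Bool) (q : List (Fin n → Bool))
    (h : hammingDist u v = 1) : phi (ext (u :: q) v) ≤ 1 / 2 + 3 / 2 * pot v 2 q := by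
  have hne : u ≠ v := by
    intro h0
    rw [h0, hammingDist_self] at h
    omega
  have h0 := PHI_pot_nonneg v q 2
  unfold ext
  split_ifs with hv
  · rw [List.dropWhile_cons, if_pos (by simp [hne])]
    have := PHI_drop v q 2 le_rfl
    linarith
  · rw [phi, pot, hammingDist_comm, h]
    have := PHI_pot_succ v q 2 le_rfl
    norm_num at this ⊢
    linarith

theorem PHI_sum (hD : S_DST) {n : ℕ} (u : Fin n → Bool) (N : Finset (Fin n → Bool))
    (hN : ∀ v ∈ N, hammingDist u v = 1) (q : List (Fin n → Bool)) : ∀ w : ℕ,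
    ∑ v ∈ N, pot v w q ≤ potD u w q + (N.card : ℝ) / 4 * pot u w q := by
  induction q with
  | nil => intro w; simp [pot, potD]
  | cons z q ih =>
    intro w
    simp only [pot, potD]
    rw [Finset.sum_add_distrib, ← Finset.mul_sum]
    have h1 := hD n u z N hN
    have h2 := ih (w + 1)
    have h3 : (w : ℝ) * ∑ v ∈ N, (1 / 4 : ℝ) ^ hammingDist v z ≤ (w : ℝ) *
        ((hammingDist u z : ℝ) * (1 / 4) ^ (hammingDist u z - 1) +
          (N.card : ℝ) * (1 / 4) ^ (hammingDist u z + 1)) :=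
      mul_le_mul_of_nonneg_left h1 (Nat.cast_nonneg _)
    rw [pow_succ] at h3
    linarith

theorem PHI_term (D : ℕ) (d : ℝ) (hd : 0 ≤ d) :
    (D : ℝ) * (1 / 4) ^ (D - 1) ≤ d / 12 * (1 / 4) ^ D + 2 * Real.exp (-d / 70) := by
  rcases Nat.eq_zero_or_pos D with h0 | h0
  · subst h0
    have := Real.exp_pos (-d / 70)
    simp
    positivity
  · obtain ⟨E, rfl⟩ : ∃ E, D = E + 1 := ⟨D - 1, by omega⟩
    have hE : E + 1 - 1 = E := rfl
    rw [hE]
    have h4 : (1 / 4 : ℝ) ^ (E + 1) = (1 / 4) ^ E * (1 / 4) := pow_succ _ _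
    have hp : (0 : ℝ) < (1 / 4) ^ E := by positivity
    by_cases h : 48 * ((E + 1 : ℕ) : ℝ) ≤ d
    · have h5 := Real.exp_pos (-d / 70)
      rw [h4]
      nlinarith
    · push Not at h
      have h6 : ((E + 1 : ℕ) : ℝ) ≤ 2 ^ E := by
        exact_mod_cast Nat.lt_two_pow_self
      have h7 : (1 / 4 : ℝ) ^ E = (1 / 2) ^ E * (1 / 2) ^ E := by
        rw [← mul_pow]; norm_num
      have h8 : (2 : ℝ) ^ E * (1 / 2) ^ E = 1 := by
        rw [← mul_pow]; norm_num
      have hq : (0 : ℝ) < (1 / 2) ^ E := by positivity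
      have h9 : ((E + 1 : ℕ) : ℝ) * (1 / 4) ^ E ≤ (1 / 2) ^ E := by
        rw [h7, ← mul_assoc]
        calc ((E + 1 : ℕ) : ℝ) * (1 / 2) ^ E * (1 / 2) ^ E
            ≤ 2 ^ E * (1 / 2) ^ E * (1 / 2) ^ E := by gcongr
          _ = (1 / 2) ^ E := by rw [h8, one_mul]
      have h10 : (1 / 2 : ℝ) ^ E = 2 * (1 / 2) ^ (E + 1) := by
        rw [pow_succ]; ring
      have h11 : (1 / 2 : ℝ) ^ (E + 1) = Real.exp (-(((E + 1 : ℕ) : ℝ) * Real.log 2)) := by
        rw [Real.exp_neg, mul_comm, Real.exp_mul, Real.exp_log (by norm_num), Real.rpow_natCast,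
          one_div, inv_pow]
      have hlog := Real.log_two_gt_d9
      have h12 : Real.exp (-(((E + 1 : ℕ) : ℝ) * Real.log 2)) ≤ Real.exp (-d / 70) := by
        apply Real.exp_le_exp.2
        have hE0 : (0 : ℝ) ≤ ((E + 1 : ℕ) : ℝ) := Nat.cast_nonneg _
        nlinarith
      have h13 : 0 ≤ d / 12 * (1 / 4) ^ (E + 1) := by positivity
      linarith

theorem PHI_potD {n : ℕ} (u : Fin n → Bool) (d : ℝ) (hd : 0 ≤ d) (q : List (Fin n → Bool)) :
    ∀ w : ℕ, potD u w q ≤ d / 12 * pot u w q +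
      2 * Real.exp (-d / 70) * ((q.length : ℝ) * w + (q.length : ℝ) ^ 2 / 2) := by
  induction q with
  | nil => intro w; simp [pot, potD]
  | cons z q ih =>
    intro w
    simp only [pot, potD, List.length_cons]
    have h1 := PHI_term (hammingDist u z) d hd
    have h2 := ih (w + 1)
    have hw : (0 : ℝ) ≤ (w : ℝ) := Nat.cast_nonneg _
    have h3 := mul_le_mul_of_nonneg_left h1 hw
    have he := Real.exp_pos (-d / 70)
    have hq : (0 : ℝ) ≤ (q.length : ℝ) := Nat.cast_nonneg _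
    push_cast at h2 ⊢
    nlinarith

theorem p_PHI : S_DST → S_PHI := by
  intro hD n k u q N hN _ hk
  have h1 : ∑ v ∈ N, phi (ext (u :: q) v) ≤ ∑ v ∈ N, (1 / 2 + 3 / 2 * pot v 2 q) :=
    Finset.sum_le_sum fun v hv => PHI_move u v q (hN v hv)
  rw [Finset.sum_add_distrib, Finset.sum_const, nsmul_eq_mul, ← Finset.mul_sum] at h1
  have h2 := PHI_sum hD u N hN q 2
  have h3 := PHI_potD u (N.card : ℝ) (Nat.cast_nonneg _) q 2
  have he := Real.exp_pos (-(N.card : ℝ) / 70)
  have hk' : (q.length : ℝ) + 1 ≤ (k : ℝ) := by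
    exact_mod_cast hk
  have hq : (0 : ℝ) ≤ (q.length : ℝ) := Nat.cast_nonneg _
  have h4 : (q.length : ℝ) * (2 : ℕ) + (q.length : ℝ) ^ 2 / 2 ≤ ((k : ℝ) + 1) ^ 2 := by
    push_cast
    nlinarith
  have h5 := mul_le_mul_of_nonneg_left h4 he.le
  rw [phi]
  linarith

end Pool.Agent.Lib.MP_233400_co.RP
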