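import Pool.Agent.Lib.MP_233400_co.RP.Stm

set_option autoImplicit false

/-!
# MP_233400_co, project RP: the process
-/

namespace Pool.Agent.Lib.MP_233400_co.RP

open Finset

lemma RUN_pot_nonneg {n : ℕ} (u : Fin n → Bool) (q : List (Fin n → Bool)) :
    ∀ w : ℕ, 0 ≤ pot u w q := by
  induction q with
  | nil => intro w; simp [pot]
  | cons z q ih =>
    intro w
    simp only [pot]
    exact add_nonneg (by positivity) (ih (w + 1))

lemma RUN_phi_nonneg {n : ℕ} (p : List (Fin n → Bool)) : 0 ≤ phi p := by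
  cases p with
  | nil => simp [phi]
  | cons u q => exact RUN_pot_nonneg u q 2

lemma RUN_psi_le {n : ℕ} {a : ℝ} (ha : 0 ≤ a) (p : List (Fin n → Bool)) :
    psi a p ≤ (p.length : ℝ) := by
  unfold psi
  have := mul_nonneg ha (RUN_phi_nonneg p)
  linarith

lemma RUN_ind (d : ℕ) (K : ℝ) :
    (if (d : ℝ) < K then (1 : ℝ) else 0) ≤ 2 ^ K * (1 / 2) ^ d := by
  split_ifs with h
  · have h1 : (2 : ℝ) ^ K * (1 / 2) ^ d = 2 ^ (K - d) := by
      rw [Real.rpow_sub (by norm_num), Real.rpow_natCast, one_div, inv_pow]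
      rfl
    rw [h1]
    exact Real.one_le_rpow (by norm_num) (by linarith)
  · positivity

/-- the sum of the potentials -/
noncomputable def RUNF {n : ℕ} (S : Finset (Fin n → Bool)) (k m : ℕ) (U : Finset ℕ)
    (s : (Fin n → Bool) → List (Fin n → Bool)) : ℝ :=
  ∑ u ∈ S, psi (128 * (m : ℝ) / (k * (U.card : ℝ))) (s u)

/-- the average gain in one step -/
noncomputable def RUNg {n : ℕ} (f : ℕ → (Fin n → Bool) → (Fin n → Bool))
    (S : Finset (Fin n → Bool)) (k m : ℕ) (U : Finset ℕ) : ℝ :=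
  (1 / (U.card : ℝ)) * ∑ w ∈ S, (((act f w U).card : ℝ) *
    (1 - (128 * (m : ℝ) / (k * ((U.card : ℝ) - 1))) / 2) - 5 * ((k : ℝ) + 1) ^ 2 *
      (Real.exp (-((k : ℝ) * (U.card : ℝ) / (8 * m)) / 70) +
        2 ^ ((k : ℝ) * (U.card : ℝ) / (8 * m)) * (1 / 2) ^ (act f w U).card))

lemma RUN_h2 (hSTEP : S_STEP) {n k m : ℕ} {S : Finset (Fin n → Bool)}
    {f : ℕ → (Fin n → Bool) → (Fin n → Bool)} (hf : Sys S f) {U : Finset ℕ}
    {s : (Fin n → Bool) → List (Fin n → Bool)} (h2 : 2 ≤ U.card)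
    (hs : ∀ u ∈ S, ∃ q, s u = u :: q) (hnd : ∀ u ∈ S, (s u).Nodup)
    (hlen : ∀ u ∈ S, (s u).length ≤ k) (hk : 1 ≤ k) (hm : 0 < m)
    (ha : 128 * (m : ℝ) ≤ k * ((U.card : ℝ) - 1)) :
    (U.card : ℝ) * (RUNF S k m U s + RUNg f S k m U) ≤
      ∑ b ∈ U, RUNF S k m (U.erase b) (step f b s) := by
  have hN : (2 : ℝ) ≤ (U.card : ℝ) := by exact_mod_cast h2
  have hk' : (0 : ℝ) < k := by exact_mod_cast hk
  have hm' : (0 : ℝ) < m := by exact_mod_cast hm
  have hN1 : (0 : ℝ) < (U.card : ℝ) - 1 := by linarith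
  have hkN : (0 : ℝ) < k * ((U.card : ℝ) - 1) := mul_pos hk' hN1
  have hN0 : (0 : ℝ) < (U.card : ℝ) := by linarith
  have ha0 : 0 ≤ 128 * (m : ℝ) / (k * ((U.card : ℝ) - 1)) := by positivity
  have ha1 : 128 * (m : ℝ) / (k * ((U.card : ℝ) - 1)) ≤ 1 := by
    rw [div_le_one hkN]; exact ha
  have hK0 : 0 ≤ (k : ℝ) * (U.card : ℝ) / (8 * m) := by positivity
  have haK : 128 * (m : ℝ) / (k * ((U.card : ℝ) - 1)) * ((k : ℝ) * (U.card : ℝ) / (8 * m)) =
      16 * ((U.card : ℝ) / ((U.card : ℝ) - 1)) := by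
    field_simp
    ring
  have hge : 1 ≤ (U.card : ℝ) / ((U.card : ℝ) - 1) := by
    rw [le_div_iff₀ hN1]; linarith
  have h4 : 4 ≤ 128 * (m : ℝ) / (k * ((U.card : ℝ) - 1)) *
      ((k : ℝ) * (U.card : ℝ) / (8 * m) / 2 - 1) := by
    have : 128 * (m : ℝ) / (k * ((U.card : ℝ) - 1)) *
      ((k : ℝ) * (U.card : ℝ) / (8 * m) / 2 - 1) =
        (128 * (m : ℝ) / (k * ((U.card : ℝ) - 1)) * ((k : ℝ) * (U.card : ℝ) / (8 * m))) / 2 -
          128 * (m : ℝ) / (k * ((U.card : ℝ) - 1)) := by ring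
    rw [this, haK]
    linarith
  have key := hSTEP n k S f U s _ _ hf h2 hs hnd hlen ha0 ha1 hK0 h4
  have e1 : 128 * (m : ℝ) / (k * ((U.card : ℝ) - 1)) * ((U.card : ℝ) - 1) / U.card =
      128 * (m : ℝ) / (k * (U.card : ℝ)) := by
    field_simp
  rw [e1] at key
  have e2 : ∑ b ∈ U, RUNF S k m (U.erase b) (step f b s) =
      ∑ b ∈ U, ∑ u ∈ S, psi (128 * (m : ℝ) / (k * ((U.card : ℝ) - 1))) (step f b s u) := by
    refine Finset.sum_congr rfl fun b hb => ?_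
    unfold RUNF
    have : ((U.erase b).card : ℝ) = (U.card : ℝ) - 1 := by
      rw [Finset.card_erase_of_mem hb]
      have : 1 ≤ U.card := by omega
      push_cast [this]; ring
    rw [this]
  rw [e2]
  refine le_trans ?_ key
  unfold RUNF RUNg
  rw [mul_add, ← mul_assoc (U.card : ℝ) (1 / (U.card : ℝ)), mul_one_div_cancel hN0.ne', one_mul]
  have hsum : ∑ w ∈ S, (((act f w U).card : ℝ) *
    (1 - (128 * (m : ℝ) / (k * ((U.card : ℝ) - 1))) / 2) - 5 * ((k : ℝ) + 1) ^ 2 *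
      (Real.exp (-((k : ℝ) * (U.card : ℝ) / (8 * m)) / 70) +
        2 ^ ((k : ℝ) * (U.card : ℝ) / (8 * m)) * (1 / 2) ^ (act f w U).card)) ≤
      ∑ w ∈ S, (((act f w U).card : ℝ) *
    (1 - (128 * (m : ℝ) / (k * ((U.card : ℝ) - 1))) / 2) - 5 * ((k : ℝ) + 1) ^ 2 *
      (Real.exp (-((k : ℝ) * (U.card : ℝ) / (8 * m)) / 70) +
        if ((act f w U).card : ℝ) < (k : ℝ) * (U.card : ℝ) / (8 * m) then 1 else 0)) := by
    refine Finset.sum_le_sum fun w _ => ?_
    have h1 := RUN_ind (act f w U).card ((k : ℝ) * (U.card : ℝ) / (8 * m))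
    have h3 : (0 : ℝ) ≤ 5 * ((k : ℝ) + 1) ^ 2 := by positivity
    have h5 := mul_le_mul_of_nonneg_left (add_le_add_right h1
      (Real.exp (-((k : ℝ) * (U.card : ℝ) / (8 * m)) / 70))) h3
    linarith
  linarith

lemma RUN_act_inter {n : ℕ} (f : ℕ → (Fin n → Bool) → (Fin n → Bool)) (w : Fin n → Bool)
    {C V : Finset ℕ} (h : V ⊆ C) : act f w C ∩ V = act f w V := by
  ext a
  simp only [act, Finset.mem_inter, Finset.mem_filter]
  constructor
  · rintro ⟨⟨_, h1⟩, h2⟩; exact ⟨h2, h1⟩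
  · rintro ⟨h1, h2⟩; exact ⟨⟨h h1, h2⟩, h1⟩

lemma RUN_avg (hAVG : S_AVG) {n k : ℕ} (S : Finset (Fin n → Bool))
    (f : ℕ → (Fin n → Bool) → (Fin n → Bool)) (C : Finset ℕ) (i : ℕ) (hi : i < C.card) :
    ∑ w ∈ S, ((1 / ((C.card : ℝ) - i)) * (1 - 64 * (C.card : ℝ) /
        (k * ((C.card : ℝ) - i - 1))) * (((act f w C).card : ℝ) *
          (((C.card : ℝ) - i) / C.card)) -
      (1 / ((C.card : ℝ) - i)) * (5 * ((k : ℝ) + 1) ^ 2) *
        2 ^ ((k : ℝ) * ((C.card : ℝ) - i) / (8 * C.card)) *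
          (1 - ((C.card : ℝ) - i) / (2 * C.card)) ^ (act f w C).card -
      (1 / ((C.card : ℝ) - i)) * (5 * ((k : ℝ) + 1) ^ 2) *
          Real.exp (-((k : ℝ) * ((C.card : ℝ) - i)) / (560 * C.card))) ≤
      avg i (RUNg f S k C.card) C := by
  have hpos : (0 : ℝ) < (C.card : ℝ) - i := by
    have : (i : ℝ) < C.card := by exact_mod_cast hi
    linarith
  have key := hAVG (Fin n → Bool) S (fun w => act f w C) (RUNg f S k C.card)
    ((1 / ((C.card : ℝ) - i)) * (1 - 64 * (C.card : ℝ) / (k * ((C.card : ℝ) - i - 1))))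
    ((1 / ((C.card : ℝ) - i)) * (5 * ((k : ℝ) + 1) ^ 2) *
        2 ^ ((k : ℝ) * ((C.card : ℝ) - i) / (8 * C.card)))
    (∑ w ∈ S, (1 / ((C.card : ℝ) - i)) * (5 * ((k : ℝ) + 1) ^ 2) *
          Real.exp (-((k : ℝ) * ((C.card : ℝ) - i)) / (560 * C.card)))
    (by positivity) i C hi ?_
  · refine le_trans (le_of_eq ?_) key
    rw [← Finset.sum_sub_distrib]
    refine Finset.sum_congr rfl fun w _ => ?_
    rw [RUN_act_inter f w (Finset.Subset.refl C)]
  · intro V hV hVc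
    have hVr : (V.card : ℝ) = (C.card : ℝ) - i := by
      rw [← hVc]; push_cast; ring
    refine le_of_eq ?_
    unfold RUNg
    rw [hVr, Finset.mul_sum, ← Finset.sum_sub_distrib]
    refine Finset.sum_congr rfl fun w _ => ?_
    rw [RUN_act_inter f w hV]
    have e3 : -((k : ℝ) * ((C.card : ℝ) - i) / (8 * (C.card : ℝ))) / 70 =
        -((k : ℝ) * ((C.card : ℝ) - i)) / (560 * C.card) := by ring
    rw [e3]
    generalize Real.exp (-((k : ℝ) * ((C.card : ℝ) - i)) / (560 * C.card)) = E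
    generalize (2 : ℝ) ^ ((k : ℝ) * ((C.card : ℝ) - i) / (8 * C.card)) = T
    ring

/-- the final computation -/
lemma RUN_fin {k L s D : ℝ} (hk : 1 ≤ k) (hL : 1 / 2 ≤ L) (hkL : 6000 * L ≤ k)
    (h0 : 0 ≤ s) (hD : (k - 1 + 10000 * L) * s < D)
    (h : s + (D * (1 - 3000 * L / k) - s) ≤ k * s) : False := by
  have hk0 : 0 < k := by linarith
  have h1 : 3000 * L / k ≤ 1 / 2 := by
    rw [div_le_iff₀ hk0]; linarith
  have h2 : (k - 1 + 10000 * L) * s * (1 - 3000 * L / k) < D * (1 - 3000 * L / k) :=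
    mul_lt_mul_of_pos_right hD (by linarith)
  have h3 : k ≤ (k - 1 + 10000 * L) * (1 - 3000 * L / k) := by
    have e : (k - 1 + 10000 * L) * (1 - 3000 * L / k) =
        (k - 1 + 10000 * L) * (k - 3000 * L) / k := by
      field_simp
    rw [e, le_div_iff₀ hk0]
    nlinarith
  have h4 := mul_le_mul_of_nonneg_right h3 h0
  nlinarith

theorem p_RUN : S_STEP → S_TEL → S_AVG → S_GOOD → S_NUMA → S_RUN := by
  intro hSTEP hTEL hAVG hGOOD hNUMA n k S H c f C hk hkL hf hcol hkC hdeg hbig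
  by_contra hno
  have G1 := fun U => (hGOOD (Fin n → Bool) H c U).1
  have G2 := fun U => (hGOOD (Fin n → Bool) H c U).2.1
  have G3 := fun U => (hGOOD (Fin n → Bool) H c U).2.2.1
  have G4 := fun U => (hGOOD (Fin n → Bool) H c U).2.2.2
  set L := Real.log ((k : ℝ) + 1) with hLdef
  have hk1 : (1 : ℝ) ≤ k := by exact_mod_cast hk
  have hk0 : (0 : ℝ) < k := by linarith
  have hL : 1 / 2 ≤ L := by
    have h1 : Real.log 2 ≤ L := Real.log_le_log (by norm_num) (by linarith)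
    have h2 := Real.log_two_gt_d9
    linarith
  set m := C.card with hm
  have hmk : (k : ℝ) ≤ m := by exact_mod_cast hkC
  have hm0 : (0 : ℝ) < m := by linarith
  have hmn : 0 < m := by exact_mod_cast hm0
  set m₀ := ⌈2800 * L * m / k⌉₊ with hm₀
  have hm₀1 : 2800 * L * m / k ≤ (m₀ : ℝ) := Nat.le_ceil _
  have hm₀2 : 2800 * L * m ≤ k * (m₀ : ℝ) := by
    rw [div_le_iff₀ hk0] at hm₀1; linarith
  have hm₀3 : m₀ ≤ m := by
    rw [hm₀, Nat.ceil_le, div_le_iff₀ hk0]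
    nlinarith
  have hm₀4 : 2 ≤ m₀ := by
    have : (1 : ℝ) < m₀ := by
      by_contra hcon
      push Not at hcon
      have h1 : k * (m₀ : ℝ) ≤ k := by nlinarith
      nlinarith
    have : 1 < m₀ := by exact_mod_cast this
    omega
  -- the invariant
  let Inv : Finset ℕ → ((Fin n → Bool) → List (Fin n → Bool)) → Prop := fun U s =>
    U ⊆ C ∧ ∀ u ∈ S, Good H c U (s u) ∧ ∃ q, s u = u :: q
  have hInv : ∀ U s, Inv U s → m₀ < U.card → ∀ a ∈ U, Inv (U.erase a) (step f a s) := by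
    rintro U s ⟨hU, hs⟩ - a ha
    refine ⟨(Finset.erase_subset _ _).trans hU, fun u hu => ?_⟩
    obtain ⟨g1, q, hq⟩ := hs (f a u) (hf.mem a u hu)
    have hst : step f a s u = ext (f a u :: q) u := by
      unfold step; rw [hq]
    rw [hst]
    rw [hq] at g1
    by_cases hfa : f a u = u
    · rw [hfa] at g1 ⊢
      obtain ⟨h1, h2⟩ := G3 U u q a g1
      exact ⟨h1, q, h2⟩
    · obtain ⟨h1, h2⟩ := hcol a u hu hfa
      obtain ⟨h3, q', h4⟩ := G2 U u (f a u) q a g1 h1 h2 ha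
      exact ⟨h3, q', h4⟩
  have hlen : ∀ U s, Inv U s → ∀ u ∈ S, (s u).length ≤ k := by
    rintro U s ⟨_, hs⟩ u hu
    by_contra hcon
    exact hno (G4 U k (s u) (hs u hu).1 (by omega))
  have hstep : ∀ U s, Inv U s → m₀ < U.card →
      (U.card : ℝ) * (RUNF S k m U s + RUNg f S k m U) ≤
        ∑ a ∈ U, RUNF S k m (U.erase a) (step f a s) := by
    intro U s hI hU
    refine RUN_h2 hSTEP hf (by omega) (fun u hu => (hI.2 u hu).2)
      (fun u hu => (hI.2 u hu).1.1) (hlen U s hI) hk hmn ?_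
    have h1 : (m₀ : ℝ) + 1 ≤ (U.card : ℝ) := by exact_mod_cast hU
    have h2 : k * (m₀ : ℝ) ≤ k * ((U.card : ℝ) - 1) :=
      mul_le_mul_of_nonneg_left (by linarith) hk0.le
    nlinarith
  obtain ⟨U', s', hI', -, hcard', hfin⟩ := hTEL _ (RUNF S k m) (RUNg f S k m) (step f) Inv m₀
    hInv hstep (m - m₀) C (fun u => [u])
    ⟨Finset.Subset.refl C, fun u _ => ⟨G1 C u, [], rfl⟩⟩ (by omega)
  -- the beginning
  have hbeg : RUNF S k m C (fun u => [u]) = S.card := by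
    unfold RUNF
    simp [psi, phi, pot]
  -- the end
  have hend : RUNF S k m U' s' ≤ k * S.card := by
    unfold RUNF
    calc ∑ u ∈ S, psi (128 * (m : ℝ) / (k * (U'.card : ℝ))) (s' u) ≤ ∑ u ∈ S, (k : ℝ) := by
          refine Finset.sum_le_sum fun u hu => ?_
          refine (RUN_psi_le (by positivity) _).trans ?_
          exact_mod_cast hlen U' s' hI' u hu
      _ = k * S.card := by rw [Finset.sum_const, nsmul_eq_mul]; ring
  -- the middle
  have hmid : ∑ w ∈ S, (((act f w C).card : ℝ) * (1 - 3000 * L / k) - 1) ≤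
      ∑ i ∈ Finset.range (m - m₀), avg i (RUNg f S k m) C := by
    calc ∑ w ∈ S, (((act f w C).card : ℝ) * (1 - 3000 * L / k) - 1)
        ≤ ∑ w ∈ S, ∑ i ∈ Finset.range (m - m₀),
          ((1 / ((m : ℝ) - i)) * (1 - 64 * m / (k * ((m : ℝ) - i - 1))) *
              (((act f w C).card : ℝ) * (((m : ℝ) - i) / m)) -
            (1 / ((m : ℝ) - i)) * (5 * ((k : ℝ) + 1) ^ 2) * 2 ^ (k * ((m : ℝ) - i) / (8 * m)) *
              (1 - ((m : ℝ) - i) / (2 * m)) ^ (act f w C).card -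
            (1 / ((m : ℝ) - i)) * (5 * ((k : ℝ) + 1) ^ 2) *
              Real.exp (-(k * ((m : ℝ) - i)) / (560 * m))) := by
          refine Finset.sum_le_sum fun w hw => ?_
          exact hNUMA k m m₀ _ hk hkL hkC (hdeg w hw) hm₀
      _ = ∑ i ∈ Finset.range (m - m₀), ∑ w ∈ S,
          ((1 / ((m : ℝ) - i)) * (1 - 64 * m / (k * ((m : ℝ) - i - 1))) *
              (((act f w C).card : ℝ) * (((m : ℝ) - i) / m)) -
            (1 / ((m : ℝ) - i)) * (5 * ((k : ℝ) + 1) ^ 2) * 2 ^ (k * ((m : ℝ) - i) / (8 * m)) *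
              (1 - ((m : ℝ) - i) / (2 * m)) ^ (act f w C).card -
            (1 / ((m : ℝ) - i)) * (5 * ((k : ℝ) + 1) ^ 2) *
              Real.exp (-(k * ((m : ℝ) - i)) / (560 * m))) := Finset.sum_comm
      _ ≤ ∑ i ∈ Finset.range (m - m₀), avg i (RUNg f S k m) C := by
          refine Finset.sum_le_sum fun i hi => ?_
          rw [Finset.mem_range] at hi
          exact RUN_avg hAVG S f C i (by omega)
  have hs2 : ∑ w ∈ S, (((act f w C).card : ℝ) * (1 - 3000 * L / k) - 1) =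
      (∑ w ∈ S, ((act f w C).card : ℝ)) * (1 - 3000 * L / k) - S.card := by
    rw [Finset.sum_sub_distrib, Finset.sum_mul]; simp
  refine RUN_fin hk1 hL hkL (Nat.cast_nonneg S.card) hbig ?_
  rw [hbeg] at hfin
  rw [hs2] at hmid
  linarith

end Pool.Agent.Lib.MP_233400_co.RP
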