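import Pool.Agent.Lib.MP_233400_co.RP.Stm

set_option autoImplicit false

/-!
# MP_233400_co, project RP: the average change in one step
-/

namespace Pool.Agent.Lib.MP_233400_co.RP

open Finset

theorem STEP_ext_self {X : Type*} [DecidableEq X] (w : X) (q : List X) :
    ext (w :: q) w = w :: q := by
  simp [ext]

/-- the inequality between real numbers for one vertex -/
theorem STEP_arith (m d l φ SL SP a K kk ed eK I : ℝ) (hm : 0 < m) (hφ : 0 ≤ φ)
    (hφl : 4 * φ ≤ kk ^ 2)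
    (hL : d * (l + 1) - 4 * φ ≤ SL) (hP : SP ≤ d / 2 + d / 2 * φ + 3 * kk ^ 2 * ed)
    (ha0 : 0 ≤ a) (ha1 : a ≤ 1) (hd0 : 0 ≤ d) (hed0 : 0 ≤ ed) (hed1 : ed ≤ 1) (heK : 0 ≤ eK)
    (hK : 4 ≤ a * (K / 2 - 1)) (hI : I = if d < K then 1 else 0) (hKd : K ≤ d → ed ≤ eK) :
    m * (l - a * (m - 1) / m * φ) + (d * (1 - a / 2) - 5 * kk ^ 2 * (eK + I)) ≤
      (SL - a * SP) + (m - d) * (l - a * φ) := by
  have h1 : m * (l - a * (m - 1) / m * φ) = m * l - a * (m - 1) * φ := by
    field_simp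
  rw [h1]
  have h2 : a * SP ≤ a * (d / 2 + d / 2 * φ + 3 * kk ^ 2 * ed) := mul_le_mul_of_nonneg_left hP ha0
  have hkk : 0 ≤ kk ^ 2 := sq_nonneg kk
  have h3 : a * (3 * kk ^ 2 * ed) ≤ 3 * kk ^ 2 * ed := by
    have : 0 ≤ 3 * kk ^ 2 * ed := mul_nonneg (mul_nonneg (by norm_num) hkk) hed0
    nlinarith
  by_cases hdK : d < K
  · rw [if_pos hdK] at hI
    subst hI
    have h4 : kk ^ 2 * ed ≤ kk ^ 2 := by nlinarith
    have h5 : 0 ≤ kk ^ 2 * eK := mul_nonneg hkk heK
    have h6 : 0 ≤ a * d * φ := mul_nonneg (mul_nonneg ha0 hd0) hφ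
    have h7 : a * φ ≤ φ := by nlinarith
    nlinarith
  · rw [if_neg hdK] at hI
    subst hI
    have h4 := hKd (not_lt.1 hdK)
    have h5 : kk ^ 2 * ed ≤ kk ^ 2 * eK := mul_le_mul_of_nonneg_left h4 hkk
    have h6 : a * (K / 2 - 1) ≤ a * (d / 2 - 1) :=
      mul_le_mul_of_nonneg_left (by linarith [not_lt.1 hdK]) ha0
    have h7 : 0 ≤ (a * (d / 2 - 1) - 4) * φ := mul_nonneg (by linarith) hφ
    have h8 : 0 ≤ kk ^ 2 * eK := mul_nonneg hkk heK
    nlinarith

theorem p_STEP : S_LEN → S_PHI → S_STEP := by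
  intro hLEN hPHI n k S f U s a K hSys hU hs hnd hlen ha0 ha1 hK0 hK
  classical
  have hm : (0 : ℝ) < (U.card : ℝ) := by exact_mod_cast (by omega : 0 < U.card)
  -- reindex
  have hre : ∀ b ∈ U, ∑ u ∈ S, psi a (step f b s u) = ∑ w ∈ S, psi a (ext (s w) (f b w)) := by
    intro b _
    refine Finset.sum_nbij' (fun u => f b u) (fun u => f b u) ?_ ?_ ?_ ?_ ?_
    · exact fun u hu => hSys.mem b u hu
    · exact fun u hu => hSys.mem b u hu
    · exact fun u hu => hSys.invol b u hu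
    · exact fun u hu => hSys.invol b u hu
    · intro u hu
      rw [step, hSys.invol b u hu]
  rw [Finset.sum_congr rfl hre, Finset.sum_comm, Finset.mul_sum, ← Finset.sum_add_distrib]
  refine Finset.sum_le_sum fun w hw => ?_
  obtain ⟨q, hq⟩ := hs w hw
  have hnd' := hnd w hw
  have hlen' := hlen w hw
  rw [hq] at hnd' hlen' ⊢
  set A := act f w U with hA
  have hAU : A ⊆ U := Finset.filter_subset _ _
  have hinj : Set.InjOn (fun b => f b w) A := by
    intro b hb b' hb' hbb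
    have hb1 : f b w ≠ w := (Finset.mem_filter.1 hb).2
    exact hSys.inj b b' w hw hb1 hbb
  set N := A.image (fun b => f b w) with hN
  have hNcard : N.card = A.card := Finset.card_image_of_injOn hinj
  have hN1 : ∀ v ∈ N, hammingDist w v = 1 := by
    intro v hv
    obtain ⟨b, hb, rfl⟩ := Finset.mem_image.1 hv
    exact hSys.one b w hw (Finset.mem_filter.1 hb).2
  obtain ⟨hL1, hL2, hL3⟩ := hLEN n w q N hN1 hnd'
  have hP1 := hPHI n k w q N hN1 hnd' hlen'
  -- the sum over `U`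
  have hsplit : ∑ b ∈ U, psi a (ext (w :: q) (f b w)) =
      (∑ v ∈ N, ((ext (w :: q) v).length : ℝ) - a * ∑ v ∈ N, phi (ext (w :: q) v)) +
        ((U.card : ℝ) - (A.card : ℝ)) * (((w :: q).length : ℝ) - a * phi (w :: q)) := by
    rw [← Finset.sum_filter_add_sum_filter_not U (fun b => f b w ≠ w)]
    congr 1
    · have h1 : ∑ b ∈ U with f b w ≠ w, psi a (ext (w :: q) (f b w)) =
          ∑ v ∈ N, psi a (ext (w :: q) v) := by
        rw [hN, Finset.sum_image hinj]
        rfl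
      rw [h1, Finset.mul_sum, ← Finset.sum_sub_distrib]
      rfl
    · have h1 : ∀ b ∈ U.filter (fun b => ¬ f b w ≠ w), psi a (ext (w :: q) (f b w)) =
          ((w :: q).length : ℝ) - a * phi (w :: q) := by
        intro b hb
        have : f b w = w := not_not.1 (Finset.mem_filter.1 hb).2
        rw [this, STEP_ext_self]
        rfl
      rw [Finset.sum_congr rfl h1, Finset.sum_const, nsmul_eq_mul]
      congr 1
      have h2 := Finset.card_filter_add_card_filter_not (s := U) (fun b => f b w ≠ w)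
      have h3 : (U.filter (fun b => f b w ≠ w)).card = A.card := rfl
      rw [h3] at h2
      have h4 : (U.card : ℝ) = (A.card : ℝ) + ((U.filter fun b => ¬ f b w ≠ w).card : ℝ) := by
        exact_mod_cast h2.symm
      linarith
  rw [hsplit]
  rw [hNcard] at hL1 hP1
  have hk : (((w :: q).length : ℝ)) ≤ (k : ℝ) := by exact_mod_cast hlen'
  have hφk : 4 * phi (w :: q) ≤ ((k : ℝ) + 1) ^ 2 := by
    refine hL3.trans ?_
    have h0 : (0 : ℝ) ≤ ((w :: q).length : ℝ) := Nat.cast_nonneg _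
    nlinarith
  have hexp : Real.exp (-(A.card : ℝ) / 70) ≤ 1 := by
    rw [Real.exp_le_one_iff]
    have : (0 : ℝ) ≤ (A.card : ℝ) := Nat.cast_nonneg _
    linarith
  have := STEP_arith (U.card : ℝ) (A.card : ℝ) ((w :: q).length : ℝ) (phi (w :: q))
    (∑ v ∈ N, ((ext (w :: q) v).length : ℝ)) (∑ v ∈ N, phi (ext (w :: q) v)) a K ((k : ℝ) + 1)
    (Real.exp (-(A.card : ℝ) / 70)) (Real.exp (-K / 70)) (if (A.card : ℝ) < K then 1 else 0)
    hm hL2 hφk hL1 hP1 ha0 ha1 (Nat.cast_nonneg _) (Real.exp_pos _).le hexp (Real.exp_pos _).le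
    hK rfl (fun h => Real.exp_le_exp.2 (by linarith))
  exact this

end Pool.Agent.Lib.MP_233400_co.RP
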