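import Pool.Agent.Lib.MP_233400_co.RP.Stm

set_option autoImplicit false

/-!
# MP_233400_co, project RP: the greedy choice of the order of the colours
-/

namespace Pool.Agent.Lib.MP_233400_co.RP

open Finset

/-- [RP TEL] greedy choice of the order of the colours. -/
theorem p_TEL : S_TEL := by
  intro Z F g stp Inv m₀ hI hF t
  induction t with
  | zero =>
    intro U s hs hU
    exact ⟨U, s, hs, Finset.Subset.refl U, by simp, by simp⟩
  | succ t ih =>
    intro U s hs hU
    have hm : m₀ < U.card := by omega
    have hpos : 0 < U.card := by omega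
    have hne : U.Nonempty := Finset.card_pos.mp hpos
    have hposR : (0 : ℝ) < (U.card : ℝ) := by exact_mod_cast hpos
    have hsum : ∑ i ∈ Finset.range (t + 1), avg i g U =
        g U + (∑ a ∈ U, ∑ i ∈ Finset.range t, avg i g (U.erase a)) / (U.card : ℝ) := by
      rw [Finset.sum_range_succ', add_comm]
      congr 1
      rw [Finset.sum_comm, Finset.sum_div]
      rfl
    have hle : ∑ _a ∈ U, (F U s + ∑ i ∈ Finset.range (t + 1), avg i g U) ≤
        ∑ a ∈ U, (F (U.erase a) (stp a s) + ∑ i ∈ Finset.range t, avg i g (U.erase a)) := by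
      rw [Finset.sum_const, nsmul_eq_mul, Finset.sum_add_distrib, hsum]
      have h1 := hF U s hs hm
      have h2 : (U.card : ℝ) * (F U s + (g U +
          (∑ a ∈ U, ∑ i ∈ Finset.range t, avg i g (U.erase a)) / (U.card : ℝ))) =
          (U.card : ℝ) * (F U s + g U) +
            ∑ a ∈ U, ∑ i ∈ Finset.range t, avg i g (U.erase a) := by
        field_simp
        ring
      rw [h2]
      linarith
    obtain ⟨a, ha, hale⟩ := Finset.exists_le_of_sum_le hne hle
    have hcard : (U.erase a).card = U.card - 1 := Finset.card_erase_of_mem ha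
    obtain ⟨U', s', h1, h2, h3, h4⟩ := ih (U.erase a) (stp a s) (hI U s hs hm a ha)
      (by rw [hcard]; omega)
    refine ⟨U', s', h1, h2.trans (Finset.erase_subset a U), ?_, hale.trans h4⟩
    rw [hcard] at h3
    omega

end Pool.Agent.Lib.MP_233400_co.RP
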