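import Pool.Agent.Lib.MP_233400_co.RP.P_DST
import Pool.Agent.Lib.MP_233400_co.RP.P_LEN
import Pool.Agent.Lib.MP_233400_co.RP.P_PHI
import Pool.Agent.Lib.MP_233400_co.RP.P_STEP
import Pool.Agent.Lib.MP_233400_co.RP.P_TEL
import Pool.Agent.Lib.MP_233400_co.RP.P_AVG
import Pool.Agent.Lib.MP_233400_co.RP.P_SYS
import Pool.Agent.Lib.MP_233400_co.RP.P_GOOD
import Pool.Agent.Lib.MP_233400_co.RP.P_NUMA
import Pool.Agent.Lib.MP_233400_co.RP.P_RUN
import Pool.Agent.Lib.MP_233400_co.RP.P_TREE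
import Pool.Agent.Lib.MP_233400_co.RP.P_FIN

set_option autoImplicit false

/-!
# MP_233400_co, project RP (rainbow paths): assembly
-/

namespace Pool.Agent.Lib.MP_233400_co.RP

theorem fin : S_FIN :=
  p_FIN p_SYS (p_RUN (p_STEP p_LEN (p_PHI p_DST)) p_TEL p_AVG p_GOOD p_NUMA) p_TREE

end Pool.Agent.Lib.MP_233400_co.RP
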