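import Mathlib
import Pool.Agent.Lib.MP_233400_co.Basic

set_option autoImplicit false

/-!
# MP_233400_co, project RP (rainbow paths): definitions

A token is a list of vertices of the cube, the most recent one first.
-/

namespace Pool.Agent.Lib.MP_233400_co.RP

open Finset

/-- Moving a token `p` to the vertex `v`: if `v` is new it is put in front, otherwise everything
after the visit to `v` is erased (loop erasure). -/
def ext {X : Type*} [DecidableEq X] (p : List X) (v : X) : List X :=
  if v ∈ p then p.dropWhile (fun x => !decide (x = v)) else v :: p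

/-- the colours of the edges of a list of vertices -/
def cols {X : Type*} (c : Sym2 X → ℕ) : List X → List ℕ
  | [] => []
  | [_] => []
  | x :: y :: r => c s(x, y) :: cols c (y :: r)

/-- the distance potential `∑ (w + i) 4 ^ (-dist (u, q_i))` -/
noncomputable def pot {n : ℕ} (u : Fin n → Bool) : ℕ → List (Fin n → Bool) → ℝ
  | _, [] => 0
  | w, z :: q => (w : ℝ) * (1 / 4) ^ hammingDist u z + pot u (w + 1) q

/-- the potential `∑_(i ≥ 1) (i + 1) 4 ^ (-dist (u, q_i))` of the token `u, q_1, q_2, …` -/
noncomputable def phi {n : ℕ} : List (Fin n → Bool) → ℝ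
  | [] => 0
  | u :: q => pot u 2 q

/-- `∑ (w + i) D_i 4 ^ (1 - D_i)`, `D_i = dist (u, q_i)` -/
noncomputable def potD {n : ℕ} (u : Fin n → Bool) : ℕ → List (Fin n → Bool) → ℝ
  | _, [] => 0
  | w, z :: q => (w : ℝ) * ((hammingDist u z : ℝ) * (1 / 4) ^ (hammingDist u z - 1)) +
      potD u (w + 1) q

/-- length minus `a` times the potential -/
noncomputable def psi {n : ℕ} (a : ℝ) (p : List (Fin n → Bool)) : ℝ :=
  (p.length : ℝ) - a * phi p

/-- A system of partial matchings: `f a u` is the neighbour of `u` via the colour `a` (`u` itself if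
there is none). -/
structure Sys {n : ℕ} (S : Finset (Fin n → Bool)) (f : ℕ → (Fin n → Bool) → (Fin n → Bool)) :
    Prop where
  mem : ∀ a, ∀ u ∈ S, f a u ∈ S
  invol : ∀ a, ∀ u ∈ S, f a (f a u) = u
  one : ∀ a, ∀ u ∈ S, f a u ≠ u → hammingDist u (f a u) = 1
  inj : ∀ a b, ∀ u ∈ S, f a u ≠ u → f a u = f b u → a = b

/-- the colours of `U` present at `w` -/
def act {n : ℕ} (f : ℕ → (Fin n → Bool) → (Fin n → Bool)) (w : Fin n → Bool) (U : Finset ℕ) :
    Finset ℕ := U.filter (fun a => f a w ≠ w)

/-- one step of the process: the colour `a` fires -/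
def step {n : ℕ} (f : ℕ → (Fin n → Bool) → (Fin n → Bool)) (a : ℕ)
    (s : (Fin n → Bool) → List (Fin n → Bool)) : (Fin n → Bool) → List (Fin n → Bool) :=
  fun u => ext (s (f a u)) u

/-- iterated average of `g` over the removal of `i` elements of `U`, one after the other -/
noncomputable def avg : ℕ → (Finset ℕ → ℝ) → Finset ℕ → ℝ
  | 0, g, U => g U
  | i + 1, g, U => (∑ a ∈ U, avg i g (U.erase a)) / U.card

/-- a good token: a rainbow path of `H`, coloured by colours that are not in `U` -/
def Good {X : Type*} (H : SimpleGraph X) (c : Sym2 X → ℕ) (U : Finset ℕ) (p : List X) : Prop :=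
  p.Nodup ∧ p.IsChain H.Adj ∧ (cols c p).Nodup ∧ ∀ a ∈ cols c p, a ∉ U

end Pool.Agent.Lib.MP_233400_co.RP
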