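import Pool.Agent.Lib.MP_233400_co.RP.Stm

set_option autoImplicit false

/-!
# MP_233400_co, project RP (rainbow paths): piece DST

The average of `4 ^ (-dist)` over neighbours.
-/

namespace Pool.Agent.Lib.MP_233400_co.RP

open Finset

private theorem DST_flip_ne {n : ℕ} (u z : Fin n → Bool) (i : Fin n) (h : u i ≠ z i) :
    hammingDist (flip u i) z + 1 = hammingDist u z := by
  unfold hammingDist
  have : (univ.filter (fun j => flip u i j ≠ z j)) = (univ.filter (fun j => u j ≠ z j)).erase i := by
    ext j
    simp only [mem_filter, mem_univ, true_and, mem_erase]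
    by_cases hj : j = i
    · subst hj
      rw [flip_apply_self]
      have : (!u j) = z j := by
        cases hu : u j <;> cases hz : z j <;> simp_all
      simp [this]
    · rw [flip_apply_ne u hj]
      simp [hj]
  rw [this]
  exact card_erase_add_one (by simp [h])

private theorem DST_flip_eq {n : ℕ} (u z : Fin n → Bool) (i : Fin n) (h : u i = z i) :
    hammingDist (flip u i) z = hammingDist u z + 1 := by
  unfold hammingDist
  have : (univ.filter (fun j => flip u i j ≠ z j)) =
      insert i (univ.filter (fun j => u j ≠ z j)) := by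
    ext j
    simp only [mem_filter, mem_univ, true_and, mem_insert]
    by_cases hj : j = i
    · subst hj
      rw [flip_apply_self]
      have : (!u j) ≠ z j := by
        cases hu : u j <;> cases hz : z j <;> simp_all
      simp [this]
    · rw [flip_apply_ne u hj]
      simp [hj]
  rw [this]
  exact card_insert_of_notMem (by simp [h])

private theorem DST_nb {n : ℕ} (u v : Fin n → Bool) (h : hammingDist u v = 1) :
    ∃ i, v = flip u i := by
  unfold hammingDist at h
  obtain ⟨i, hi⟩ := card_eq_one.1 h
  refine ⟨i, ?_⟩
  funext j
  have hj : j ∈ univ.filter (fun j => u j ≠ v j) ↔ j ∈ ({i} : Finset (Fin n)) := by rw [hi]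
  simp only [mem_filter, mem_univ, true_and, mem_singleton] at hj
  by_cases hji : j = i
  · subst hji
    rw [flip_apply_self]
    have : u j ≠ v j := hj.2 rfl
    cases hu : u j <;> cases hz : v j <;> simp_all
  · rw [flip_apply_ne u hji]
    by_contra hne
    exact hji (hj.1 (fun h => hne h.symm))

theorem p_DST : S_DST := by
  intro n u z N hN
  set D : ℕ := hammingDist u z with hD
  set A : Finset (Fin n) := univ.filter (fun j => u j ≠ z j) with hA
  have hAc : A.card = D := rfl
  have hterm : ∀ v ∈ N, (1 / 4 : ℝ) ^ hammingDist v z ≤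
      (if v ∈ A.image (flip u) then (1 / 4 : ℝ) ^ (D - 1) else 0) + (1 / 4 : ℝ) ^ (D + 1) := by
    intro v hv
    obtain ⟨i, rfl⟩ := DST_nb u v (hN v hv)
    by_cases hi : u i = z i
    · rw [DST_flip_eq u z i hi]
      have : (0 : ℝ) ≤ (if flip u i ∈ A.image (flip u) then (1 / 4 : ℝ) ^ (D - 1) else 0) := by
        split_ifs
        · positivity
        · exact le_refl _
      linarith
    · have h1 := DST_flip_ne u z i hi
      have h2 : hammingDist (flip u i) z = D - 1 := by omega
      have h3 : flip u i ∈ A.image (flip u) :=
        mem_image_of_mem _ (by simp [hA, hi])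
      rw [if_pos h3, h2]
      have : (0 : ℝ) ≤ (1 / 4 : ℝ) ^ (D + 1) := by positivity
      linarith
  refine (sum_le_sum hterm).trans ?_
  rw [sum_add_distrib, sum_const, nsmul_eq_mul, ← sum_filter, sum_const, nsmul_eq_mul]
  refine add_le_add ?_ (le_refl _)
  refine mul_le_mul_of_nonneg_right ?_ (by positivity)
  have h1 : (N.filter (fun v => v ∈ A.image (flip u))).card ≤ (A.image (flip u)).card :=
    card_le_card (fun v hv => (mem_filter.1 hv).2)
  have h2 : (A.image (flip u)).card ≤ D := hAc ▸ card_image_le
  exact_mod_cast h1.trans h2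

end Pool.Agent.Lib.MP_233400_co.RP
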