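import Mathlib
import Pool.Agent.Lib.MP_233400_co.RP.Stm

set_option autoImplicit false

/-!
# MP_233400_co, project RP (rainbow paths): piece TREE
-/

namespace Pool.Agent.Lib.MP_233400_co.RP

open Finset

private theorem TREE_edges (k : ℕ) : (SimpleGraph.pathGraph (k + 1)).edgeSet =
    Set.range (fun i : Fin k => s(i.castSucc, i.succ)) := by
  ext e
  induction e using Sym2.ind with
  | _ x y =>
    rw [SimpleGraph.mem_edgeSet, SimpleGraph.pathGraph_adj, Set.mem_range]
    constructor
    · rintro (h | h)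
      · refine ⟨⟨x, by omega⟩, ?_⟩
        rw [Sym2.eq_iff]
        left
        exact ⟨Fin.ext rfl, Fin.ext h⟩
      · refine ⟨⟨y, by omega⟩, ?_⟩
        rw [Sym2.eq_iff]
        right
        exact ⟨Fin.ext rfl, Fin.ext h⟩
    · rintro ⟨i, hi⟩
      rw [Sym2.eq_iff] at hi
      rcases hi with ⟨h1, h2⟩ | ⟨h1, h2⟩
      · left
        rw [← h1, ← h2]
        simp
      · right
        rw [← h1, ← h2]
        simp

private theorem TREE_inj (k : ℕ) :
    Function.Injective (fun i : Fin k => s(i.castSucc, i.succ)) := by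
  intro i j h
  simp only [Sym2.eq_iff] at h
  rcases h with ⟨h1, -⟩ | ⟨h1, h2⟩
  · exact Fin.castSucc_injective k h1
  · have h3 := congrArg Fin.val h1
    have h4 := congrArg Fin.val h2
    simp only [Fin.val_castSucc, Fin.val_succ] at h3 h4
    omega

theorem p_TREE : S_TREE := by
  intro k
  have h1 : (SimpleGraph.pathGraph (k + 1)).edgeSet.ncard = k := by
    rw [TREE_edges, ← Set.image_univ, Set.ncard_image_of_injective _ (TREE_inj k),
      Set.ncard_univ, Nat.card_fin]
  refine ⟨?_, h1⟩
  rw [SimpleGraph.isTree_iff_connected_and_card]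
  refine ⟨SimpleGraph.pathGraph_connected k, ?_⟩
  rw [Nat.card_fin]
  exact congrArg (fun m => m + 1) h1

end Pool.Agent.Lib.MP_233400_co.RP
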